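import Pool.Agent.Lib.Pe46137L.RecDefs

/-!
MODULE RecB (about 1.5 h). Savitch's recursion over a sequence of layers: connectivity. Adaptation of
`Rec_connected` of Lib/Pe46137/Sym/PriceUp.lean (read the proof there; the only change is the
position `i`; helper lemmas `eqv_closed'`, `eqv_iff'`, `eqv_map'` come from the same imports).
`chain_iff` is a simple induction on `j`.
-/

namespace Pool.Agent.Lib.Pe46137L

open Equiv Pool.Agent.Lib.Pe46137.Sym

variable {W₀ X : Type}

theorem RecL_connected (s0 t0 : W₀) {B : ℕ → X → X → W₀ → W₀ → Prop} {R : ℕ → X → X → Prop}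
    (hB : ∀ i u v, Relation.EqvGen (B i u v) s0 t0 ↔ R i u v) : ∀ (j i : ℕ) (u v : X),
    Relation.EqvGen (RecL True s0 t0 B j i u v) (sttG X s0 j) (ennG X t0 j) ↔
      Chain R j i u v := by
  intro j
  induction j with
  | zero =>
    intro i u v
    exact hB i u v
  | succ j ih =>
    intro i u v
    constructor
    · intro h
      by_contra hc
      have hc' : ∀ w, Chain R j i u w → ¬ Chain R j (i + 2 ^ j) w v :=
        fun w h1 h2 => hc ⟨w, h1, h2⟩
      set A : Set (Bool ⊕ (X × Bool × StG W₀ X j)) := {z | z = Sum.inl true ∨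
        (∃ w a, z = Sum.inr (w, true, a) ∧
          Relation.EqvGen (RecL True s0 t0 B j i u w) (sttG X s0 j) a) ∨
        (∃ w a, z = Sum.inr (w, false, a) ∧ Chain R j i u w ∧
          Relation.EqvGen (RecL True s0 t0 B j (i + 2 ^ j) w v) (sttG X s0 j) a)} with hA
      have m1 : ∀ b, Sum.inl b ∈ A ↔ b = true := by
        intro b
        simp [hA]
      have m2 : ∀ w a, Sum.inr (w, true, a) ∈ A ↔
          Relation.EqvGen (RecL True s0 t0 B j i u w) (sttG X s0 j) a := by
        intro w a
        simp [hA]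
      have m3 : ∀ w a, Sum.inr (w, false, a) ∈ A ↔ (Chain R j i u w ∧
          Relation.EqvGen (RecL True s0 t0 B j (i + 2 ^ j) w v) (sttG X s0 j) a) := by
        intro w a
        simp [hA]
      have := eqv_closed' (W := Bool ⊕ (X × Bool × StG W₀ X j)) A (fun z z' hz => ?_) h
      · have h2 : ((Sum.inl true : Bool ⊕ (X × Bool × StG W₀ X j)) ∈ A) ↔
          (Sum.inl false ∈ A) := this
        rw [m1, m1] at h2
        simp at h2
      · rcases z with b | ⟨w, c, a⟩ <;> rcases z' with b' | ⟨w', c', a'⟩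
        · exact hz.elim
        · obtain ⟨-, rfl, rfl, rfl⟩ : True ∧ b = true ∧ c' = true ∧ a' = sttG X s0 j := hz
          rw [m1, m2]
          simp [Relation.EqvGen.refl]
        · obtain ⟨-, rfl, rfl, rfl⟩ : True ∧ c = false ∧ b' = false ∧ a = ennG X t0 j := hz
          rw [m1, m3, ih]
          simp only [iff_false, not_and, Bool.false_eq_true]
          exact hc' w
        · have h' : (True ∧ w = w' ∧ c = true ∧ c' = false ∧ a = ennG X t0 j ∧
              a' = sttG X s0 j) ∨
            (w = w' ∧ c = true ∧ c' = true ∧ RecL True s0 t0 B j i u w a a') ∨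
            (w = w' ∧ c = false ∧ c' = false ∧
              RecL True s0 t0 B j (i + 2 ^ j) w v a a') := hz
          rcases h' with ⟨-, rfl, rfl, rfl, rfl, rfl⟩ | ⟨rfl, rfl, rfl, h'⟩ | ⟨rfl, rfl, rfl, h'⟩
          · rw [m2, m3, ih]
            simp [Relation.EqvGen.refl]
          · rw [m2, m2]
            exact eqv_iff' (r := RecL True s0 t0 B j i u w) h' _
          · rw [m3, m3, eqv_iff' (r := RecL True s0 t0 B j (i + 2 ^ j) w v) h']
    · rintro ⟨w, h1, h2⟩
      rw [← ih] at h1 h2
      have e1 : Relation.EqvGen (RecL True s0 t0 B (j + 1) i u v)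
          (Sum.inr (w, true, sttG X s0 j)) (Sum.inr (w, true, ennG X t0 j)) := by
        refine eqv_map' (r := RecL True s0 t0 B j i u w)
          (fun a => (Sum.inr (w, true, a) : StG W₀ X (j + 1))) (fun a b hab => ?_) h1
        exact Or.inr (Or.inl ⟨rfl, rfl, rfl, hab⟩)
      have e2 : Relation.EqvGen (RecL True s0 t0 B (j + 1) i u v)
          (Sum.inr (w, false, sttG X s0 j)) (Sum.inr (w, false, ennG X t0 j)) := by
        refine eqv_map' (r := RecL True s0 t0 B j (i + 2 ^ j) w v)
          (fun a => (Sum.inr (w, false, a) : StG W₀ X (j + 1))) (fun a b hab => ?_) h2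
        exact Or.inr (Or.inr ⟨rfl, rfl, rfl, hab⟩)
      have c1 : RecL True s0 t0 B (j + 1) i u v (Sum.inl true)
          (Sum.inr (w, true, sttG X s0 j)) :=
        ⟨trivial, rfl, rfl, rfl⟩
      have c2 : RecL True s0 t0 B (j + 1) i u v (Sum.inr (w, true, ennG X t0 j))
          (Sum.inr (w, false, sttG X s0 j)) :=
        Or.inl ⟨trivial, rfl, rfl, rfl, rfl, rfl⟩
      have c3 : RecL True s0 t0 B (j + 1) i u v (Sum.inr (w, false, ennG X t0 j))
          (Sum.inl false) :=
        ⟨trivial, rfl, rfl, rfl⟩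
      exact (Relation.EqvGen.rel _ _ c1).trans _ _ _ (e1.trans _ _ _
        ((Relation.EqvGen.rel _ _ c2).trans _ _ _ (e2.trans _ _ _ (Relation.EqvGen.rel _ _ c3))))

theorem chain_iff {R : ℕ → X → X → Prop} : ∀ (j i : ℕ) (u v : X), Chain R j i u v ↔
    ∃ w : ℕ → X, w i = u ∧ w (i + 2 ^ j) = v ∧
      ∀ m, i ≤ m → m < i + 2 ^ j → R m (w m) (w (m + 1)) := by
  intro j
  induction j with
  | zero =>
    intro i u v
    constructor
    · intro h
      refine ⟨fun m => if m ≤ i then u else v, by simp, by simp, fun m h1 h2 => ?_⟩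
      have hm : m = i := by
        rw [pow_zero] at h2
        omega
      subst hm
      have h3 : R m u v := h
      simpa using h3
    · rintro ⟨w, rfl, rfl, h⟩
      exact h i le_rfl (by simp)
  | succ j ih =>
    intro i u v
    constructor
    · rintro ⟨x, h1, h2⟩
      obtain ⟨w1, a1, b1, c1⟩ := (ih i u x).1 h1
      obtain ⟨w2, a2, b2, c2⟩ := (ih (i + 2 ^ j) x v).1 h2
      have hp : 0 < 2 ^ j := by positivity
      have hs : i + 2 ^ (j + 1) = i + 2 ^ j + 2 ^ j := by ring
      refine ⟨fun m => if m ≤ i + 2 ^ j then w1 m else w2 m, ?_, ?_, fun m h3 h4 => ?_⟩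
      · simp only
        rw [if_pos (by omega)]
        exact a1
      · simp only
        rw [if_neg (by omega), hs]
        exact b2
      · simp only
        rw [hs] at h4
        by_cases h5 : m + 1 ≤ i + 2 ^ j
        · rw [if_pos (by omega), if_pos h5]
          exact c1 m h3 (by omega)
        · rw [if_neg h5]
          by_cases h6 : m ≤ i + 2 ^ j
          · rw [if_pos h6]
            have hm : m = i + 2 ^ j := by omega
            rw [hm, b1, ← a2]
            exact c2 _ le_rfl (by omega)
          · rw [if_neg h6]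
            exact c2 m (by omega) (by omega)
    · rintro ⟨w, rfl, rfl, h⟩
      have hs : i + 2 ^ (j + 1) = i + 2 ^ j + 2 ^ j := by ring
      have hp : 0 < 2 ^ j := by positivity
      refine ⟨w (i + 2 ^ j), (ih _ _ _).2 ⟨w, rfl, rfl, fun m h1 h2 => h m h1 ?_⟩,
        (ih _ _ _).2 ⟨w, rfl, by rw [hs], fun m h1 h2 => h m ?_ ?_⟩⟩
      · rw [hs]
        omega
      · omega
      · rw [hs]
        exact h2

end Pool.Agent.Lib.Pe46137L
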