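import Pool.Agent.Lib.Pe46137L.RecA
import Pool.Agent.Lib.Pe46137L.RecB

/-!
MODULE Full (about 1.5 h). The network that is invariant inside all inner layers. Imports are black
boxes.

Take `W₀ = Bool`, `s0 = true`, `t0 = false`, `X = Fin n`, `j = Nat.clog 2 k`, so `k ≤ 2 ^ j`
(`Nat.le_pow_clog`). Position `m ≤ k` stands for layer `m`, positions beyond `k` for copies of the
last layer. Network on `StG Bool (Fin n) j`: `source = sttG _ true j`, `sink = ennG _ false j`,
`wire = RecL True true false Bw j 0 p q`, `pos e = RecL False true false (Bp e) j 0 p q`,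
`neg e = fun _ _ => False`, with
`Bw m u v z z' := z = true ∧ z' = false ∧ k ≤ m ∧ u = v` and
`Bp e m u v z z' := z = true ∧ z' = false ∧ m < k ∧ (e.1.1 : ℕ) = m ∧ (e.2.1 : ℕ) = m + 1 ∧
e.1.2 = u ∧ e.2.2 = v`.
On the layered digraph `G` the closed contacts are `RecL True true false B j 0 p q` with
`B m u v z z' ↔ Bw m u v z z' ∨ ∃ e ∈ G, Bp e m u v z z'` (`RecL_union`, index type `{e // e ∈ G}`),
and `EqvGen (B m u v) true false ↔ R m u v`, `R m u v := if m < k then ((m, u), (m + 1, v)) ∈ G else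
u = v`. So by `RecL_connected` and `chain_iff` acceptance means: there is `w : ℕ → Fin n` with
`w 0 = p`, `w (2 ^ j) = q`, `R m (w m) (w (m + 1))` for all `m < 2 ^ j`, i.e. the walk
`(0, w 0), …, (k, w k)` in `G` and `w k = … = w (2 ^ j) = q`. This is reachability from `start k p`
to `goal k q`, because in a layered digraph a walk from layer `0` to layer `k` visits the layers
one after the other.
Invariance: let `Inside 0 (k - 1) π`; `σ m` = the permutation of `Fin n` induced by `π` on layer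
`m` for `1 ≤ m ≤ k - 1` and `1` otherwise (on the layers `0` and `k` the renaming `π` is the
identity); use `actL Bool σ j 0`, `actL_stt`, `actL_enn`, `RecL_act` with
`Bp (π e.1, π e.2) m (σ m u) (σ (m + 1) v) z z' ↔ Bp e m u v z z'`; `σ 0 p = p`,
`σ (2 ^ j) q = q`. Cardinality: `card_StG_le` with `card Bool = 2`, `card (Fin n) = n`.
-/

namespace Pool.Agent.Lib.Pe46137L

open Pool.Agent.Lib.Pe46137

namespace FullAux

open Pool.Agent.Lib.Pe46137.Sym

variable {k n : ℕ}

/-- wires of the base networks beyond the last layer -/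
def Bw (k : ℕ) {n : ℕ} (m : ℕ) (u v : Fin n) (z z' : Bool) : Prop :=
  z = true ∧ z' = false ∧ k ≤ m ∧ u = v

/-- contacts of the base networks -/
def Bp (e : Vtx k n × Vtx k n) (m : ℕ) (u v : Fin n) (z z' : Bool) : Prop :=
  z = true ∧ z' = false ∧ m < k ∧ (e.1.1 : ℕ) = m ∧ (e.2.1 : ℕ) = m + 1 ∧ e.1.2 = u ∧ e.2.2 = v

/-- the relation between consecutive positions -/
def Rr (G : Set (Vtx k n × Vtx k n)) (m : ℕ) (u v : Fin n) : Prop :=
  (k ≤ m ∧ u = v) ∨ ∃ e ∈ G, m < k ∧ (e.1.1 : ℕ) = m ∧ (e.2.1 : ℕ) = m + 1 ∧ e.1.2 = u ∧ e.2.2 = v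

/-- the network -/
def net (j : ℕ) (p q : Fin n) : SwitchingNetwork (Vtx k n × Vtx k n) (StG Bool (Fin n) j) where
  source := sttG _ true j
  sink := ennG _ false j
  wire := RecL True true false (Bw k) j 0 p q
  pos e := RecL False true false (Bp e) j 0 p q
  neg _ _ _ := False

theorem eqv_base {Rp : Prop} :
    Relation.EqvGen (fun z z' : Bool => z = true ∧ z' = false ∧ Rp) true false ↔ Rp := by
  constructor
  · intro h
    by_contra hR
    have key : ∀ a b : Bool, Relation.EqvGen (fun z z' : Bool => z = true ∧ z' = false ∧ Rp) a b →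
        a = b := by
      intro a b hab
      induction hab with
      | rel x y h => exact absurd h.2.2 hR
      | refl x => rfl
      | symm x y _ ih => exact ih.symm
      | trans x y z _ _ ih1 ih2 => exact ih1.trans ih2
    have := key _ _ h
    simp at this
  · intro h
    exact Relation.EqvGen.rel _ _ ⟨rfl, rfl, h⟩

theorem walk_of_reach {G : Set (Vtx k n × Vtx k n)} (hG : G ∈ Layered k n) {p : Fin n}
    {x : Vtx k n} (h : Relation.ReflTransGen (fun a b => (a, b) ∈ G) (start k p) x) :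
    ∃ w : ℕ → Fin n, w 0 = p ∧ (∀ m, (x.1 : ℕ) ≤ m → w m = x.2) ∧
      ∀ m, m < (x.1 : ℕ) → Rr G m (w m) (w (m + 1)) := by
  induction h with
  | refl =>
    refine ⟨fun _ => p, rfl, fun m _ => rfl, fun m hm => ?_⟩
    have h0 : ((start k p).1 : ℕ) = 0 := rfl
    omega
  | @tail x y _ hxy ih =>
    obtain ⟨w, hw0, hw1, hw2⟩ := ih
    have hy : (y.1 : ℕ) = x.1 + 1 := hG (x, y) hxy
    refine ⟨fun m => if m ≤ (x.1 : ℕ) then w m else y.2, ?_, ?_, ?_⟩
    · simp [hw0]
    · intro m hm
      simp only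
      rw [if_neg (by omega)]
    · intro m hm
      simp only
      rcases Nat.lt_or_ge m (x.1 : ℕ) with h1 | h1
      · rw [if_pos (by omega), if_pos (by omega)]
        exact hw2 m h1
      · have h2 : m = (x.1 : ℕ) := by omega
        subst h2
        rw [if_pos le_rfl, if_neg (by omega), hw1 _ le_rfl]
        refine Or.inr ⟨(x, y), hxy, ?_, rfl, hy, rfl, rfl⟩
        have := y.1.2
        omega

theorem reach_of_walk {G : Set (Vtx k n × Vtx k n)} {p : Fin n} {w : ℕ → Fin n} (hw0 : w 0 = p)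
    {M : ℕ} (hM : k ≤ M) (hw : ∀ m, m < M → Rr G m (w m) (w (m + 1))) :
    ∀ m (hm : m < k + 1), Relation.ReflTransGen (fun a b => (a, b) ∈ G) (start k p)
      ((⟨m, hm⟩, w m) : Vtx k n) := by
  intro m
  induction m with
  | zero =>
    intro hm
    rw [hw0]
    exact Relation.ReflTransGen.refl
  | succ m ih =>
    intro hm
    refine (ih (by omega)).tail ?_
    rcases hw m (by omega) with ⟨h1, _⟩ | ⟨e, he, _, h2, h3, h4, h5⟩
    · omega
    · have e1 : e.1 = ((⟨m, by omega⟩, w m) : Vtx k n) :=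
        Prod.ext (Fin.ext h2) h4
      have e2 : e.2 = ((⟨m + 1, hm⟩, w (m + 1)) : Vtx k n) :=
        Prod.ext (Fin.ext h3) h5
      have e3 : e = (((⟨m, by omega⟩, w m) : Vtx k n), ((⟨m + 1, hm⟩, w (m + 1)) : Vtx k n)) :=
        Prod.ext e1 e2
      rw [← e3]
      exact he

theorem walk_const {G : Set (Vtx k n × Vtx k n)} {w : ℕ → Fin n} {M : ℕ}
    (hw : ∀ m, m < M → Rr G m (w m) (w (m + 1))) : ∀ i, k + i ≤ M → w (k + i) = w k := by
  intro i
  induction i with
  | zero => intro _; rfl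
  | succ i ih =>
    intro hi
    rw [← ih (by omega)]
    rcases hw (k + i) (by omega) with ⟨_, h1⟩ | ⟨e, _, h2, _⟩
    · exact h1.symm
    · omega

theorem decides {j : ℕ} (hj : k ≤ 2 ^ j) (p q : Fin n) :
    (net (k := k) j p q).DecidesOn (Layered k n) (start k p) (goal k q) := by
  intro G hG
  set B : ℕ → Fin n → Fin n → Bool → Bool → Prop := fun m u v z z' =>
    z = true ∧ z' = false ∧ Rr G m u v with hB
  have hclosed : (net (k := k) j p q).Closed G Gᶜ = RecL True true false B j 0 p q := by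
    funext z z'
    apply propext
    have h1 := RecL_union (ι := {e : Vtx k n × Vtx k n // e ∈ G}) true false (B := B)
      (B1 := Bw k) (B2 := fun x => Bp x.1) (by
        intro i u v z z'
        simp only [hB, Bw, Bp, Rr]
        constructor
        · rintro ⟨h1, h2, ⟨h3, h4⟩ | ⟨e, he, h3⟩⟩
          · exact Or.inl ⟨h1, h2, h3, h4⟩
          · exact Or.inr ⟨⟨e, he⟩, h1, h2, h3⟩
        · rintro (⟨h1, h2, h3, h4⟩ | ⟨⟨e, he⟩, h1, h2, h3⟩)
          · exact ⟨h1, h2, Or.inl ⟨h3, h4⟩⟩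
          · exact ⟨h1, h2, Or.inr ⟨e, he, h3⟩⟩) j 0 p q z z'
    rw [h1]
    unfold SwitchingNetwork.Closed
    constructor
    · rintro (h | ⟨e, he, h⟩ | ⟨e, _, h⟩)
      · exact Or.inl h
      · exact Or.inr ⟨⟨e, he⟩, h⟩
      · exact h.elim
    · rintro (h | ⟨⟨e, he⟩, h⟩)
      · exact Or.inl h
      · exact Or.inr (Or.inl ⟨e, he, h⟩)
  unfold SwitchingNetwork.Connects
  rw [hclosed]
  have h2 := RecL_connected (X := Fin n) true false (B := B) (R := Rr G) (fun i u v => eqv_base) j 0 p q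
  have h3 : Relation.EqvGen (RecL True true false B j 0 p q) (net (k := k) j p q).source
      (net (k := k) j p q).sink ↔ Chain (Rr G) j 0 p q := h2
  rw [h3, chain_iff]
  constructor
  · rintro ⟨w, hw0, hw1, hw2⟩
    rw [zero_add] at hw1
    have hw3 : ∀ m, m < 2 ^ j → Rr G m (w m) (w (m + 1)) := fun m hm =>
      hw2 m (Nat.zero_le _) (by omega)
    have h4 := reach_of_walk hw0 hj hw3 k (Nat.lt_succ_self k)
    have h5 := walk_const (k := k) hw3 (2 ^ j - k) (by omega)
    rw [Nat.add_sub_cancel' hj, hw1] at h5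
    rw [← h5] at h4
    exact h4
  · intro h
    obtain ⟨w, hw0, hw1, hw2⟩ := walk_of_reach hG h
    have hlast : ((goal k q).1 : ℕ) = k := rfl
    have hq : (goal k q).2 = q := rfl
    rw [hlast] at hw1 hw2
    rw [hq] at hw1
    refine ⟨w, hw0, hw1 _ (by omega), fun m _ _ => ?_⟩
    rcases Nat.lt_or_ge m k with h1 | h1
    · exact hw2 m h1
    · refine Or.inl ⟨h1, ?_⟩
      rw [hw1 m h1, hw1 (m + 1) (by omega)]

theorem invariant (hk : 0 < k) {j : ℕ} (hj : k ≤ 2 ^ j) (p q : Fin n) :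
    LayerInvariant (net (k := k) j p q) 0 (k - 1) := by
  intro π hπ
  obtain ⟨σ', rfl⟩ := exists_spread (by omega) hπ
  set σ : ℕ → Equiv.Perm (Fin n) := fun m =>
    if h : 0 < m ∧ m - (0 + 1) < k - 1 then σ' ⟨m - (0 + 1), h.2⟩ else 1 with hσ
  have hπv : ∀ v : Vtx k n, spread k 0 (k - 1) σ' v = (v.1, σ v.1 v.2) := by
    intro v
    refine Prod.ext rfl ?_
    change (if h : 0 < (v.1 : ℕ) ∧ (v.1 : ℕ) - (0 + 1) < k - 1 then
      σ' ⟨(v.1 : ℕ) - (0 + 1), h.2⟩ v.2 else v.2) = (σ v.1) v.2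
    simp only [hσ]
    split_ifs with h
    · rfl
    · rfl
  have hσ0 : σ 0 = 1 := by
    simp [hσ]
  have hσk : ∀ m, k ≤ m → σ m = 1 := by
    intro m hm
    simp only [hσ]
    rw [dif_neg]
    omega
  have e0 : σ 0 p = p := by rw [hσ0]; rfl
  have e1 : σ (0 + 2 ^ j) q = q := by rw [hσk _ (by omega)]; rfl
  refine ⟨actL Bool σ j 0, ?_, ?_, ?_, ?_, ?_⟩
  · exact actL_stt σ true j 0
  · exact actL_enn σ false j 0
  · intro v w
    have h := RecL_act True true false σ (B := Bw k) (B' := Bw k) (by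
      intro i u v z z'
      unfold Bw
      constructor
      · rintro ⟨h1, h2, h3, h4⟩
        rw [hσk i h3, hσk (i + 1) (by omega)] at h4
        exact ⟨h1, h2, h3, h4⟩
      · rintro ⟨h1, h2, h3, h4⟩
        rw [hσk i h3, hσk (i + 1) (by omega)]
        exact ⟨h1, h2, h3, h4⟩) j 0 p q v w
    rw [e0, e1] at h
    exact h
  · intro e v w
    have h := RecL_act False true false σ
      (B := Bp (spread k 0 (k - 1) σ' e.1, spread k 0 (k - 1) σ' e.2)) (B' := Bp e) (by
      intro i u v z z'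
      unfold Bp
      simp only [hπv]
      constructor
      · rintro ⟨h1, h2, h3, h4, h5, h6, h7⟩
        rw [h4] at h6
        rw [h5] at h7
        exact ⟨h1, h2, h3, h4, h5, (σ i).injective h6, (σ (i + 1)).injective h7⟩
      · rintro ⟨h1, h2, h3, h4, h5, h6, h7⟩
        exact ⟨h1, h2, h3, h4, h5, by rw [h4, h6], by rw [h5, h7]⟩) j 0 p q v w
    rw [e0, e1] at h
    exact h
  · intro e v w
    exact Iff.rfl

end FullAux

theorem full {k n : ℕ} (hk : 0 < k) (p q : Fin n) :
    ∃ (W : Type) (_ : Fintype W) (N : SwitchingNetwork (Vtx k n × Vtx k n) W),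
      LayerInvariant N 0 (k - 1) ∧ N.DecidesOn (Layered k n) (start k p) (goal k q) ∧
      N.Avoids Set.univ ∧ Fintype.card W ≤ 2 * (2 * n + 1) ^ Nat.clog 2 k := by
  have hj : k ≤ 2 ^ Nat.clog 2 k := Nat.le_pow_clog (by norm_num) k
  refine ⟨Sym.StG Bool (Fin n) (Nat.clog 2 k), inferInstance, FullAux.net (Nat.clog 2 k) p q,
    FullAux.invariant hk hj p q, FullAux.decides hj p q, fun e _ v w h => h, ?_⟩
  have h := Sym.card_StG_le (W₀ := Bool) (X := Fin n) (by simp) (Nat.clog 2 k)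
  simpa using h

end Pool.Agent.Lib.Pe46137L
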