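import Pool.Agent.Lib.Pe46137L.Defs

/-!
MODULE Gad (about 1.5 h). Substituting variables and constants into a switching network, and the two
reachability lemmas used for the end segments.

`subst f N`: the variable `e₀` of `N` becomes the variable `e` if `f e₀ = Sum.inl e` and the
constant `b` if `f e₀ = Sum.inr b`. On the digraph `G` it behaves like `N` on `pullG f G`.

`headG a v` (`first segment`): `Reachable (pullG (headMap a q v) G) (start k p) (goal k q)` iff the
vertex `(a + 1, v)` is reachable from `start k p` in `G` (`a + 1 ≤ k`): below layer `a` the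
arcs of `G`; from layer `a` to layer `a + 1` only arcs to the vertex `q`, and `((a, w), (a + 1, q))`
stands for the arc `((a, w), (a + 1, v))` of `G`; from layer `a + 1` on the constant path through
the vertices `q`.
`tailMap b p u` (`last segment`): `Reachable (pullG (tailMap b p u) G) (start k p) (goal k q)` iff
the goal is reachable from the vertex `(b, u)` in `G` (`1 ≤ b < k`): up to layer `b` the constant
path through the vertices `p`; from layer `b` only arcs from the vertex `p`, and
`((b, p), (b + 1, w))` stands for the arc `((b, u), (b + 1, w))` of `G`; beyond layer `b + 1` the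
arcs of `G`.
Proof of both: in a layered digraph a walk from layer `i` to layer `j` visits the layers
`i, …, j` one after the other (useful auxiliary lemma: for layered `H`, `Reachable H x y` iff there is
`w : ℕ → Fin n` with the obvious properties, or induction along the walk).
-/

namespace Pool.Agent.Lib.Pe46137L

open Pool.Agent.Lib.Pe46137

/-- substitution of variables and constants for the variables of a switching network -/
def subst {E₀ E W : Type*} (f : E₀ → E ⊕ Bool) (N : SwitchingNetwork E₀ W) :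
    SwitchingNetwork E W where
  source := N.source
  sink := N.sink
  wire v w := N.wire v w ∨ (∃ e₀, f e₀ = Sum.inr true ∧ N.pos e₀ v w) ∨
    ∃ e₀, f e₀ = Sum.inr false ∧ N.neg e₀ v w
  pos e v w := ∃ e₀, f e₀ = Sum.inl e ∧ N.pos e₀ v w
  neg e v w := ∃ e₀, f e₀ = Sum.inl e ∧ N.neg e₀ v w

/-- the set of variables of the original network that are one -/
def pullG {E₀ E : Type*} (f : E₀ → E ⊕ Bool) (G : Set E) : Set E₀ :=
  {e₀ | f e₀ = Sum.inr true ∨ ∃ e ∈ G, f e₀ = Sum.inl e}

theorem subst_closed {E₀ E W : Type*} (f : E₀ → E ⊕ Bool) (N : SwitchingNetwork E₀ W)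
    (G : Set E) : (subst f N).Closed G Gᶜ = N.Closed (pullG f G) (pullG f G)ᶜ := by
  funext v w
  apply propext
  unfold SwitchingNetwork.Closed subst pullG
  simp only [Set.mem_ofPred_eq, Set.mem_compl_iff]
  constructor
  · rintro ((h | ⟨e₀, h1, h2⟩ | ⟨e₀, h1, h2⟩) | ⟨e, he, e₀, h1, h2⟩ | ⟨e, he, e₀, h1, h2⟩)
    · exact Or.inl h
    · exact Or.inr (Or.inl ⟨e₀, Or.inl h1, h2⟩)
    · refine Or.inr (Or.inr ⟨e₀, ?_, h2⟩)
      rw [h1]
      simp
    · exact Or.inr (Or.inl ⟨e₀, Or.inr ⟨e, he, h1⟩, h2⟩)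
    · refine Or.inr (Or.inr ⟨e₀, ?_, h2⟩)
      rw [h1]
      rintro (h3 | ⟨e', he', h3⟩)
      · exact absurd h3 (by simp)
      · rw [Sum.inl.injEq] at h3
        exact he (h3 ▸ he')
  · rintro (h | ⟨e₀, h1 | ⟨e, he, h1⟩, h2⟩ | ⟨e₀, h1, h2⟩)
    · exact Or.inl (Or.inl h)
    · exact Or.inl (Or.inr (Or.inl ⟨e₀, h1, h2⟩))
    · exact Or.inr (Or.inl ⟨e, he, e₀, h1, h2⟩)
    · rcases hf : f e₀ with e | b
      · refine Or.inr (Or.inr ⟨e, fun he => h1 (Or.inr ⟨e, he, hf⟩), e₀, hf, h2⟩)
      · rcases b with _ | _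
        · exact Or.inl (Or.inr (Or.inr ⟨e₀, hf, h2⟩))
        · exact absurd (Or.inl hf) h1

open Classical in
/-- the substitution for the first segment -/
noncomputable def headMap {k n : ℕ} (a : ℕ) (ha : a < k) (q v : Fin n)
    (e : Vtx k n × Vtx k n) : (Vtx k n × Vtx k n) ⊕ Bool :=
  if (e.2.1 : ℕ) = e.1.1 + 1 then
    if (e.1.1 : ℕ) < a then Sum.inl e
    else if (e.1.1 : ℕ) = a then
      if e.2.2 = q then Sum.inl (e.1, (⟨a + 1, by omega⟩, v)) else Sum.inr false
    else Sum.inr (decide (e.1.2 = q ∧ e.2.2 = q))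
  else Sum.inr false

open Classical in
/-- the substitution for the last segment -/
noncomputable def tailMap {k n : ℕ} (b : ℕ) (hb : b < k) (p u : Fin n)
    (e : Vtx k n × Vtx k n) : (Vtx k n × Vtx k n) ⊕ Bool :=
  if (e.2.1 : ℕ) = e.1.1 + 1 then
    if (e.1.1 : ℕ) < b then Sum.inr (decide (e.1.2 = p ∧ e.2.2 = p))
    else if (e.1.1 : ℕ) = b then
      if e.1.2 = p then Sum.inl ((⟨b, by omega⟩, u), e.2) else Sum.inr false
    else Sum.inl e
  else Sum.inr false

private theorem mem_head {k n a : ℕ} (ha : a < k) (q v : Fin n) (G : Set (Vtx k n × Vtx k n))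
    (x y : Vtx k n) : (x, y) ∈ pullG (headMap a ha q v) G ↔ (y.1 : ℕ) = x.1 + 1 ∧
      (((x.1 : ℕ) < a ∧ (x, y) ∈ G) ∨
       ((x.1 : ℕ) = a ∧ y.2 = q ∧ (x, ((⟨a + 1, by omega⟩, v) : Vtx k n)) ∈ G) ∨
       (a < (x.1 : ℕ) ∧ x.2 = q ∧ y.2 = q)) := by
  unfold pullG headMap
  simp only [Set.mem_ofPred_eq]
  by_cases h1 : (y.1 : ℕ) = x.1 + 1
  · rw [if_pos h1]
    by_cases h2 : (x.1 : ℕ) < a
    · rw [if_pos h2]
      have h3 : (x.1 : ℕ) ≠ a := h2.ne
      have h4 : ¬ a < (x.1 : ℕ) := by omega
      simp [h1, h2, h3, h4]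
    · rw [if_neg h2]
      by_cases h3 : (x.1 : ℕ) = a
      · rw [if_pos h3]
        have h4 : ¬ a < (x.1 : ℕ) := by omega
        by_cases h5 : y.2 = q
        · rw [if_pos h5]
          simp [h1, h3, h5]
        · rw [if_neg h5]
          simp [h1, h3, h5]
      · rw [if_neg h3]
        have h4 : a < (x.1 : ℕ) := by omega
        simp [h1, h2, h3, h4]
  · rw [if_neg h1]
    simp [h1]

private theorem mem_tail {k n b : ℕ} (hb : b < k) (p u : Fin n) (G : Set (Vtx k n × Vtx k n))
    (x y : Vtx k n) : (x, y) ∈ pullG (tailMap b hb p u) G ↔ (y.1 : ℕ) = x.1 + 1 ∧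
      (((x.1 : ℕ) < b ∧ x.2 = p ∧ y.2 = p) ∨
       ((x.1 : ℕ) = b ∧ x.2 = p ∧ (((⟨b, by omega⟩, u) : Vtx k n), y) ∈ G) ∨
       (b < (x.1 : ℕ) ∧ (x, y) ∈ G)) := by
  unfold pullG tailMap
  simp only [Set.mem_ofPred_eq]
  by_cases h1 : (y.1 : ℕ) = x.1 + 1
  · rw [if_pos h1]
    by_cases h2 : (x.1 : ℕ) < b
    · rw [if_pos h2]
      have h3 : (x.1 : ℕ) ≠ b := h2.ne
      have h4 : ¬ b < (x.1 : ℕ) := by omega
      simp [h1, h2, h3, h4]
    · rw [if_neg h2]
      by_cases h3 : (x.1 : ℕ) = b
      · rw [if_pos h3]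
        have h4 : ¬ b < (x.1 : ℕ) := by omega
        by_cases h5 : x.2 = p
        · rw [if_pos h5]
          simp [h1, h3, h5]
        · rw [if_neg h5]
          simp [h1, h3, h5]
      · rw [if_neg h3]
        have h4 : b < (x.1 : ℕ) := by omega
        simp [h1, h2, h3, h4]
  · rw [if_neg h1]
    simp [h1]

theorem head_reach {k n a : ℕ} (ha : a < k) (p q v : Fin n) {G : Set (Vtx k n × Vtx k n)}
    (hG : G ∈ Layered k n) :
    Reachable (pullG (headMap a ha q v) G) (start k p) (goal k q) ↔
      Reachable G (start k p) ((⟨a + 1, by omega⟩, v) : Vtx k n) := by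
  constructor
  · intro h
    have key : ∀ z : Vtx k n, Reachable (pullG (headMap a ha q v) G) (start k p) z →
        ((z.1 : ℕ) ≤ a → Reachable G (start k p) z) ∧
        (a < (z.1 : ℕ) → Reachable G (start k p) ((⟨a + 1, by omega⟩, v) : Vtx k n)) := by
      intro z hz
      induction hz with
      | refl =>
        refine ⟨fun _ => Relation.ReflTransGen.refl, fun h0 => ?_⟩
        exact absurd h0 (by simp [start])
      | tail _ hxy ih =>
        rw [mem_head] at hxy
        obtain ⟨h1, h2⟩ := hxy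
        rcases h2 with ⟨h2, h3⟩ | ⟨h2, h3, h4⟩ | ⟨h2, h3, h4⟩
        · exact ⟨fun _ => (ih.1 h2.le).tail h3, fun h5 => absurd h5 (by omega)⟩
        · exact ⟨fun h5 => absurd h5 (by omega), fun _ => (ih.1 h2.le).tail h4⟩
        · exact ⟨fun h5 => absurd h5 (by omega), fun _ => ih.2 h2⟩
    exact (key _ h).2 (by simpa [goal] using ha)
  · intro h
    have key : ∀ z : Vtx k n, Reachable G (start k p) z → (z.1 : ℕ) ≤ a →
        Reachable (pullG (headMap a ha q v) G) (start k p) z := by
      intro z hz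
      induction hz with
      | refl => exact fun _ => Relation.ReflTransGen.refl
      | @tail x y _ hxy ih =>
        intro hy
        have h1 : (y.1 : ℕ) = x.1 + 1 := hG _ hxy
        refine (ih (by omega)).tail ?_
        rw [mem_head]
        exact ⟨h1, Or.inl ⟨by omega, hxy⟩⟩
    have hstep : Reachable (pullG (headMap a ha q v) G) (start k p)
        ((⟨a + 1, by omega⟩, q) : Vtx k n) := by
      rcases Relation.ReflTransGen.cases_tail h with h0 | ⟨x, hx, hxy⟩
      · exfalso
        have h1 := congrArg (fun z : Vtx k n => (z.1 : ℕ)) h0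
        simp [start] at h1
      · have h1 : (a + 1 : ℕ) = x.1 + 1 := hG _ hxy
        refine (key x hx (by omega)).tail ?_
        rw [mem_head]
        exact ⟨h1, Or.inr (Or.inl ⟨by omega, rfl, hxy⟩)⟩
    have hall : ∀ i : ℕ, ∀ hi : a + 1 + i < k + 1,
        Reachable (pullG (headMap a ha q v) G) (start k p) ((⟨a + 1 + i, hi⟩, q) : Vtx k n) := by
      intro i
      induction i with
      | zero => exact fun _ => hstep
      | succ i ih =>
        intro hi
        refine (ih (by omega)).tail ?_
        rw [mem_head]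
        exact ⟨rfl, Or.inr (Or.inr ⟨by simp only; omega, rfl, rfl⟩)⟩
    have h2 := hall (k - (a + 1)) (by omega)
    have h3 : ((⟨a + 1 + (k - (a + 1)), by omega⟩, q) : Vtx k n) = goal k q := by
      refine Prod.ext (Fin.ext ?_) rfl
      simp only [goal, Fin.val_last]
      omega
    rwa [h3] at h2

theorem tail_reach {k n b : ℕ} (hb : b < k) (p q u : Fin n) {G : Set (Vtx k n × Vtx k n)}
    (hG : G ∈ Layered k n) :
    Reachable (pullG (tailMap b hb p u) G) (start k p) (goal k q) ↔
      Reachable G ((⟨b, by omega⟩, u) : Vtx k n) (goal k q) := by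
  constructor
  · intro h
    have key : ∀ z : Vtx k n, Reachable (pullG (tailMap b hb p u) G) (start k p) z →
        (b < (z.1 : ℕ) → Reachable G ((⟨b, by omega⟩, u) : Vtx k n) z) := by
      intro z hz
      induction hz with
      | refl =>
        intro h0
        exact absurd h0 (by simp [start])
      | tail _ hxy ih =>
        rw [mem_tail] at hxy
        obtain ⟨h1, h2⟩ := hxy
        intro h5
        rcases h2 with ⟨h2, h3⟩ | ⟨h2, h3, h4⟩ | ⟨h2, h3⟩
        · exact absurd h5 (by omega)
        · exact Relation.ReflTransGen.single h4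
        · exact (ih h2).tail h3
    exact key _ h (by simpa [goal] using hb)
  · intro h
    have hall : ∀ i : ℕ, ∀ hi : i ≤ b,
        Reachable (pullG (tailMap b hb p u) G) (start k p)
          ((⟨i, by omega⟩, p) : Vtx k n) := by
      intro i
      induction i with
      | zero => exact fun _ => Relation.ReflTransGen.refl
      | succ i ih =>
        intro hi
        refine (ih (by omega)).tail ?_
        rw [mem_tail]
        exact ⟨rfl, Or.inl ⟨by simp only; omega, rfl, rfl⟩⟩
    have key : ∀ z : Vtx k n, Reachable G ((⟨b, by omega⟩, u) : Vtx k n) z →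
        b ≤ (z.1 : ℕ) ∧ ((z.1 : ℕ) = b → z = ((⟨b, by omega⟩, u) : Vtx k n)) ∧
        (b < (z.1 : ℕ) → Reachable (pullG (tailMap b hb p u) G) (start k p) z) := by
      intro z hz
      induction hz with
      | refl => exact ⟨le_rfl, fun _ => rfl, fun h0 => absurd h0 (lt_irrefl _)⟩
      | @tail x y _ hxy ih =>
        have h1 : (y.1 : ℕ) = x.1 + 1 := hG _ hxy
        obtain ⟨i1, i2, i3⟩ := ih
        refine ⟨by omega, fun h0 => absurd h0 (by omega), fun _ => ?_⟩
        rcases Nat.lt_or_ge b (x.1 : ℕ) with h2 | h2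
        · refine (i3 h2).tail ?_
          rw [mem_tail]
          exact ⟨h1, Or.inr (Or.inr ⟨h2, hxy⟩)⟩
        · have h3 : (x.1 : ℕ) = b := le_antisymm h2 i1
          have h4 := i2 h3
          subst h4
          refine (hall b le_rfl).tail ?_
          rw [mem_tail]
          exact ⟨h1, Or.inr (Or.inl ⟨rfl, rfl, hxy⟩)⟩
    exact (key _ h).2.2 (by simpa [goal] using hb)

theorem head_layered {k n a : ℕ} (ha : a < k) (q v : Fin n) (G : Set (Vtx k n × Vtx k n)) :
    pullG (headMap a ha q v) G ∈ Layered k n := by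
  rintro ⟨x, y⟩ he
  exact ((mem_head ha q v G x y).1 he).1

theorem tail_layered {k n b : ℕ} (hb : b < k) (p u : Fin n) (G : Set (Vtx k n × Vtx k n)) :
    pullG (tailMap b hb p u) G ∈ Layered k n := by
  rintro ⟨x, y⟩ he
  exact ((mem_tail hb p u G x y).1 he).1

end Pool.Agent.Lib.Pe46137L
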