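import Pool.Agent.Lib.Pe46137L.RecA
import Pool.Agent.Lib.Pe46137L.RecB
import Pool.Agent.Lib.Pe46137L.Gad

/-!
MODULE Upper (about 2 h). A switching network made invariant inside `l` consecutive layers. Imports
are black boxes. (Compare `symNet` in Lib/Pe46137/Sym/PriceNet.lean, the same idea.)

`l = 0`: `N = N₀` (`inside_zero`: the renaming is `1`, take `ρ = 1`; `Nat.clog 2 1 = 0`).
Let `l ≥ 1`, `j = Nat.clog 2 (l + 1)`, so `l + 1 ≤ 2 ^ j` (`Nat.le_pow_clog`), `X = Fin n`,
`s0 = N₀.source`, `t0 = N₀.sink`; `s0 ≠ t0` since `N₀` decides the empty digraph (`start ≠ goal`), so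
`2 ≤ card W₀`. Position `0` is the start, position `m` with `1 ≤ m ≤ l` is the layer `a + m`,
positions beyond `l` are copies of the goal. Write `H v := subst (headMap a _ q v) N₀` and
`T u := subst (tailMap (a + l) _ p u) N₀`. Base contacts from the vertex `u` of position `m` to the
vertex `v` of position `m + 1`:
* wires `Bw m u v z z'`: `m = 0`: `(H v).wire z z'`; `0 < m < l`: none; `m = l`: `(T u).wire z z'`;
  `m > l`: `z = s0 ∧ z' = t0`.
* variables `Bp e m u v z z'`: `m = 0`: `(H v).pos e z z'`; `0 < m < l`: `z = s0 ∧ z' = t0 ∧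
  (e.1.1 : ℕ) = a + m ∧ e.1.2 = u ∧ (e.2.1 : ℕ) = a + m + 1 ∧ e.2.2 = v`; `m = l`:
  `(T u).pos e z z'`; `m > l`: none.
* negations `Bn e m u v z z'`: `m = 0`: `(H v).neg e z z'`; `m = l`: `(T u).neg e z z'`; else none.
The network: states `StG W₀ (Fin n) j`, source `sttG _ s0 j`, sink `ennG _ t0 j`, wires
`RecL True s0 t0 Bw j 0 p q`, `pos e = RecL False s0 t0 (Bp e) j 0 p q`,
`neg e = RecL False s0 t0 (Bn e) j 0 p q`. If `N₀.Avoids Set.univ` then no `Bn e` has a contact, so
`N.Avoids Set.univ` by `RecL_empty`. Cardinality: `card_StG_le`.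
DECIDES. On a layered digraph `G` the closed contacts are `RecL True s0 t0 B j 0 p q` where
`B m u v z z' ↔ Bw m u v z z' ∨ (∃ e ∈ G, Bp e m u v z z') ∨ ∃ e ∈ Gᶜ, Bn e m u v z z'`
(`RecL_union` with index type `{e // e ∈ G} ⊕ {e // e ∉ G}`), and `EqvGen (B m u v) s0 t0 ↔ R m u v`
with `R 0 u v = Reachable G (start k p) (a + 1, v)` (`subst_closed`, `head_layered`, `head_reach`),
`R m u v = (((a + m, u), (a + m + 1, v)) ∈ G)` for `0 < m < l` (`s0 ≠ t0`), `R l u v =
Reachable G (a + l, u) (goal k q)`, `R m u v = True` for `m > l`. By `RecL_connected`, `chain_iff`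
acceptance means: there are `w 1, …, w l` with `(a + 1, w 1)` reachable from the start, the arcs
`((a + m, w m), (a + m + 1, w (m + 1)))` in `G`, and the goal reachable from `(a + l, w l)`, i.e. the
goal is reachable from the start (a walk in a layered digraph visits the layers one after the
other).
INVARIANT. Let `Inside a l π`, `π = spread k a l σ'` (`exists_spread`), `σ m = σ' (m - 1)` for
`1 ≤ m ≤ l` and `σ m = 1` otherwise; `ρ = actL W₀ σ j 0` (`actL_stt`, `actL_enn`). By `RecL_act` it is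
enough that `Bw m (σ m u) (σ (m + 1) v) z z' ↔ Bw m u v z z'` (`headMap a _ q (σ 1 v) e₀ = Sum.inr b
↔ headMap a _ q v e₀ = Sum.inr b`, same for `tailMap`) and `Bp (π e.1, π e.2) m (σ m u) (σ (m + 1) v)
z z' ↔ Bp e m u v z z'`, same for `Bn`: for `m = 0` this is
`headMap a _ q (σ 1 v) e₀ = Sum.inl (π e.1, π e.2) ↔ headMap a _ q v e₀ = Sum.inl e`, true because `π`
fixes the vertices of the layers up to `a` and `π (a + 1, v) = (a + 1, σ 1 v)`; for `m = l`
`tailMap (a + l) _ p (σ l u) e₀ = Sum.inl (π e.1, π e.2) ↔ tailMap (a + l) _ p u e₀ = Sum.inl e`.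
Finally `σ 0 p = p` and `σ (0 + 2 ^ j) q = q`.
-/

namespace Pool.Agent.Lib.Pe46137L

open Pool.Agent.Lib.Pe46137

namespace UpperAux

open Sym Equiv

variable {k n : ℕ} {W₀ : Type}

/-- the vertex `u` of layer `c` -/
def vx (k : ℕ) {n : ℕ} (c : ℕ) (u : Fin n) : Vtx k n :=
  (⟨min c k, Nat.lt_succ_of_le (min_le_right _ _)⟩, u)

theorem vx_eq {c : ℕ} (hc : c ≤ k) (u : Fin n) :
    vx k c u = ((⟨c, Nat.lt_succ_of_le hc⟩, u) : Vtx k n) :=
  Prod.ext (Fin.ext (min_eq_left hc)) rfl

theorem eq_vx (v : Vtx k n) : v = vx k v.1 v.2 := by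
  rw [vx_eq (Nat.le_of_lt_succ v.1.2)]

/-- walks in layered digraphs -/
theorem walk {G : Set (Vtx k n × Vtx k n)} (hG : G ∈ Layered k n) {x y : Vtx k n}
    (h : Reachable G x y) : (x.1 : ℕ) ≤ y.1 ∧ ∃ w : ℕ → Fin n, w x.1 = x.2 ∧ w y.1 = y.2 ∧
      ∀ c, (x.1 : ℕ) ≤ c → c < y.1 → (vx k c (w c), vx k (c + 1) (w (c + 1))) ∈ G := by
  induction h with
  | refl => exact ⟨le_rfl, fun _ => x.2, rfl, rfl, fun c h1 h2 => absurd h1 (not_le.2 h2)⟩
  | @tail y z _ hyz ih =>
    obtain ⟨hxy, w, hw1, hw2, hw3⟩ := ih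
    have hl : (z.1 : ℕ) = y.1 + 1 := hG _ hyz
    refine ⟨by omega, Function.update w z.1 z.2, ?_, Function.update_self _ _ _, ?_⟩
    · rw [Function.update_of_ne (by omega)]
      exact hw1
    · intro c h1 h2
      rw [Function.update_of_ne (by omega : c ≠ z.1)]
      by_cases hc : c = y.1
      · subst hc
        have e1 : vx k y.1 (w y.1) = y := by rw [hw2]; exact (eq_vx y).symm
        have e2 : vx k ((y.1 : ℕ) + 1) (Function.update w (z.1 : ℕ) z.2 ((y.1 : ℕ) + 1)) = z := by
          rw [← hl, Function.update_self]; exact (eq_vx z).symm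
        rw [e1, e2]
        exact hyz
      · rw [Function.update_of_ne (by omega : c + 1 ≠ z.1)]
        exact hw3 c h1 (by omega)

theorem of_walk {G : Set (Vtx k n × Vtx k n)} (w : ℕ → Fin n) {b c : ℕ} (hbc : b ≤ c)
    (h : ∀ m, b ≤ m → m < c → (vx k m (w m), vx k (m + 1) (w (m + 1))) ∈ G) :
    Reachable G (vx k b (w b)) (vx k c (w c)) := by
  induction c, hbc using Nat.le_induction with
  | base => exact Relation.ReflTransGen.refl
  | succ c hbc ih =>
    exact (ih (fun m h1 h2 => h m h1 (by omega))).tail (h c hbc (by omega))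

section net

variable (a l : ℕ) (ha : a < k) (hb : a + l < k) (p q : Fin n)
  (N₀ : SwitchingNetwork (Vtx k n × Vtx k n) W₀)

/-- base contacts that are permanently closed -/
def Bw (m : ℕ) (u v : Fin n) (z z' : W₀) : Prop :=
  (m = 0 ∧ (subst (headMap a ha q v) N₀).wire z z') ∨
  (m = l ∧ (subst (tailMap (a + l) hb p u) N₀).wire z z') ∨
  (l < m ∧ z = N₀.source ∧ z' = N₀.sink)

/-- base contacts labelled by variables -/
def Bp (e : Vtx k n × Vtx k n) (m : ℕ) (u v : Fin n) (z z' : W₀) : Prop :=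
  (m = 0 ∧ (subst (headMap a ha q v) N₀).pos e z z') ∨
  (0 < m ∧ m < l ∧ z = N₀.source ∧ z' = N₀.sink ∧
    ((e.1.1 : ℕ) = a + m ∧ e.1.2 = u) ∧ ((e.2.1 : ℕ) = a + (m + 1) ∧ e.2.2 = v)) ∨
  (m = l ∧ (subst (tailMap (a + l) hb p u) N₀).pos e z z')

/-- base contacts labelled by negated variables -/
def Bn (e : Vtx k n × Vtx k n) (m : ℕ) (u v : Fin n) (z z' : W₀) : Prop :=
  (m = 0 ∧ (subst (headMap a ha q v) N₀).neg e z z') ∨
  (m = l ∧ (subst (tailMap (a + l) hb p u) N₀).neg e z z')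

/-- the network -/
def net (j : ℕ) : SwitchingNetwork (Vtx k n × Vtx k n) (StG W₀ (Fin n) j) where
  source := sttG _ N₀.source j
  sink := ennG _ N₀.sink j
  wire := RecL True N₀.source N₀.sink (Bw a l ha hb p q N₀) j 0 p q
  pos e := RecL False N₀.source N₀.sink (Bp a l ha hb p q N₀ e) j 0 p q
  neg e := RecL False N₀.source N₀.sink (Bn a l ha hb p q N₀ e) j 0 p q

/-- all closed base contacts -/
def BG (G : Set (Vtx k n × Vtx k n)) (m : ℕ) (u v : Fin n) (z z' : W₀) : Prop :=
  Bw a l ha hb p q N₀ m u v z z' ∨ ∃ i : {e // e ∈ G} ⊕ {e // e ∈ Gᶜ},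
    Sum.elim (fun e : {e // e ∈ G} => Bp a l ha hb p q N₀ e.1)
      (fun e : {e // e ∈ Gᶜ} => Bn a l ha hb p q N₀ e.1) i m u v z z'

/-- the relation of the positions -/
def R (G : Set (Vtx k n × Vtx k n)) (m : ℕ) (u v : Fin n) : Prop :=
  (m = 0 → Reachable G (start k p) (vx k (a + 1) v)) ∧
  (0 < m → m < l → (vx k (a + m) u, vx k (a + (m + 1)) v) ∈ G) ∧
  (m = l → Reachable G (vx k (a + l) u) (goal k q))

theorem BG_connected (hl : 1 ≤ l) (h₀ : N₀.DecidesOn (Layered k n) (start k p) (goal k q))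
    {G : Set (Vtx k n × Vtx k n)} (hG : G ∈ Layered k n) (m : ℕ) (u v : Fin n) :
    Relation.EqvGen (BG a l ha hb p q N₀ G m u v) N₀.source N₀.sink ↔ R a l p q G m u v := by
  rcases Nat.eq_zero_or_pos m with hm | hm
  · -- the first segment
    subst hm
    have h : BG a l ha hb p q N₀ G 0 u v =
        N₀.Closed (pullG (headMap a ha q v) G) (pullG (headMap a ha q v) G)ᶜ := by
      rw [← subst_closed]
      funext z z'
      apply propext
      constructor
      · rintro ((⟨_, h⟩ | ⟨h1, _⟩ | ⟨h1, _⟩) | ⟨i | i, hi⟩)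
        · exact Or.inl h
        · omega
        · omega
        · rcases hi with ⟨_, h⟩ | ⟨h1, _⟩ | ⟨h1, _⟩
          · exact Or.inr (Or.inl ⟨i.1, i.2, h⟩)
          · omega
          · omega
        · rcases hi with ⟨_, h⟩ | ⟨h1, _⟩
          · exact Or.inr (Or.inr ⟨i.1, i.2, h⟩)
          · omega
      · rintro (h | ⟨e, he, h⟩ | ⟨e, he, h⟩)
        · exact Or.inl (Or.inl ⟨rfl, h⟩)
        · exact Or.inr ⟨Sum.inl ⟨e, he⟩, Or.inl ⟨rfl, h⟩⟩
        · exact Or.inr ⟨Sum.inr ⟨e, he⟩, Or.inl ⟨rfl, h⟩⟩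
    rw [h]
    have h2 := h₀ _ (head_layered ha q v G)
    unfold SwitchingNetwork.Connects at h2
    rw [h2, head_reach ha p q v hG]
    have h3 : vx k (a + 1) v = ((⟨a + 1, by omega⟩, v) : Vtx k n) := vx_eq (by omega) v
    constructor
    · intro h4
      exact ⟨fun _ => h3 ▸ h4, fun h5 => absurd h5 (by omega), fun h5 => absurd h5 (by omega)⟩
    · intro h4
      exact h3 ▸ h4.1 rfl
  rcases lt_trichotomy m l with hml | hml | hml
  · -- an inner position
    have h : ∀ z z', BG a l ha hb p q N₀ G m u v z z' ↔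
        (z = N₀.source ∧ z' = N₀.sink ∧ (vx k (a + m) u, vx k (a + (m + 1)) v) ∈ G) := by
      intro z z'
      have e1 : (vx k (a + m) u).1 = (⟨a + m, by omega⟩ : Fin (k + 1)) := by
        rw [vx_eq (by omega)]
      have e2 : (vx k (a + (m + 1)) v).1 = (⟨a + (m + 1), by omega⟩ : Fin (k + 1)) := by
        rw [vx_eq (by omega)]
      constructor
      · rintro ((⟨h1, _⟩ | ⟨h1, _⟩ | ⟨h1, _⟩) | ⟨i | i, hi⟩)
        · omega
        · omega
        · omega
        · rcases hi with ⟨h1, _⟩ | ⟨_, _, hz, hz', ⟨h1, h2⟩, h3, h4⟩ | ⟨h1, _⟩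
          · omega
          · refine ⟨hz, hz', ?_⟩
            have h5 : i.1 = (vx k (a + m) u, vx k (a + (m + 1)) v) := by
              refine Prod.ext (Prod.ext ?_ h2) (Prod.ext ?_ h4)
              · rw [e1]; exact Fin.ext h1
              · rw [e2]; exact Fin.ext h3
            rw [← h5]
            exact i.2
          · omega
        · rcases hi with ⟨h1, _⟩ | ⟨h1, _⟩
          · omega
          · omega
      · rintro ⟨hz, hz', hg⟩
        refine Or.inr ⟨Sum.inl ⟨_, hg⟩, Or.inr (Or.inl ⟨hm, hml, hz, hz', ⟨?_, rfl⟩, ?_, rfl⟩)⟩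
        · show (((vx k (a + m) u).1 : Fin (k + 1)) : ℕ) = a + m
          rw [e1]
        · show (((vx k (a + (m + 1)) v).1 : Fin (k + 1)) : ℕ) = a + (m + 1)
          rw [e2]
    have hne : N₀.source ≠ N₀.sink := by
      intro hs
      have h1 := (h₀ ∅ (fun e he => absurd he (Set.notMem_empty e))).1 (by
        unfold SwitchingNetwork.Connects
        rw [hs]
        exact Relation.EqvGen.refl _)
      obtain ⟨_, w, _, _, h3⟩ := walk (fun e he => absurd he (Set.notMem_empty e)) h1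
      have h4 : ((start k p).1 : ℕ) < (goal k q).1 := by
        show (0 : ℕ) < k
        omega
      exact absurd (h3 _ le_rfl h4) (Set.notMem_empty _)
    constructor
    · intro h1
      have key : ∀ z z', Relation.EqvGen (BG a l ha hb p q N₀ G m u v) z z' →
          z = z' ∨ (vx k (a + m) u, vx k (a + (m + 1)) v) ∈ G := by
        intro z z' hzz
        induction hzz with
        | rel x y hxy => exact Or.inr ((h x y).1 hxy).2.2
        | refl x => exact Or.inl rfl
        | symm x y _ ih => exact ih.imp Eq.symm id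
        | trans x y z _ _ ih1 ih2 =>
          rcases ih1 with h1 | h1
          · rcases ih2 with h2 | h2
            · exact Or.inl (h1.trans h2)
            · exact Or.inr h2
          · exact Or.inr h1
      rcases key _ _ h1 with h2 | h2
      · exact absurd h2 hne
      · exact ⟨fun h5 => absurd h5 (by omega), fun _ _ => h2, fun h5 => absurd h5 (by omega)⟩
    · intro h1
      exact Relation.EqvGen.rel _ _ ((h _ _).2 ⟨rfl, rfl, h1.2.1 hm hml⟩)
  · -- the last segment
    subst hml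
    have h : BG a m ha hb p q N₀ G m u v =
        N₀.Closed (pullG (tailMap (a + m) hb p u) G) (pullG (tailMap (a + m) hb p u) G)ᶜ := by
      rw [← subst_closed]
      funext z z'
      apply propext
      constructor
      · rintro ((⟨h1, _⟩ | ⟨_, h⟩ | ⟨h1, _⟩) | ⟨i | i, hi⟩)
        · omega
        · exact Or.inl h
        · omega
        · rcases hi with ⟨h1, _⟩ | ⟨_, h1, _⟩ | ⟨_, h⟩
          · omega
          · omega
          · exact Or.inr (Or.inl ⟨i.1, i.2, h⟩)
        · rcases hi with ⟨h1, _⟩ | ⟨_, h⟩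
          · omega
          · exact Or.inr (Or.inr ⟨i.1, i.2, h⟩)
      · rintro (h | ⟨e, he, h⟩ | ⟨e, he, h⟩)
        · exact Or.inl (Or.inr (Or.inl ⟨rfl, h⟩))
        · exact Or.inr ⟨Sum.inl ⟨e, he⟩, Or.inr (Or.inr ⟨rfl, h⟩)⟩
        · exact Or.inr ⟨Sum.inr ⟨e, he⟩, Or.inr ⟨rfl, h⟩⟩
    rw [h]
    have h2 := h₀ _ (tail_layered hb p u G)
    unfold SwitchingNetwork.Connects at h2
    rw [h2, tail_reach hb p q u hG]
    have h3 : vx k (a + m) u = ((⟨a + m, by omega⟩, u) : Vtx k n) := vx_eq (by omega) u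
    constructor
    · intro h4
      exact ⟨fun h5 => absurd h5 (by omega), fun _ h5 => absurd h5 (by omega), fun _ => h3 ▸ h4⟩
    · intro h4
      exact h3 ▸ h4.2.2 rfl
  · -- beyond the block
    refine ⟨fun _ => ⟨fun h5 => absurd h5 (by omega), fun _ h5 => absurd h5 (by omega),
      fun h5 => absurd h5 (by omega)⟩, fun _ => ?_⟩
    exact Relation.EqvGen.rel _ _ (Or.inl (Or.inr (Or.inr ⟨hml, rfl, rfl⟩)))

theorem chain_reach (hl : 1 ≤ l) (hb : a + l < k) {G : Set (Vtx k n × Vtx k n)}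
    (hG : G ∈ Layered k n) {j : ℕ} (hj : l + 1 ≤ 2 ^ j) :
    Chain (R a l p q G) j 0 p q ↔ Reachable G (start k p) (goal k q) := by
  rw [chain_iff]
  constructor
  · rintro ⟨w, -, -, hw3⟩
    have h1 : ∀ m, 1 ≤ m → m ≤ l → Reachable G (start k p) (vx k (a + m) (w m)) := by
      intro m hm1
      induction m, hm1 using Nat.le_induction with
      | base =>
        intro _
        exact (hw3 0 le_rfl (by omega)).1 rfl
      | succ m hm1 ih =>
        intro hm2
        exact (ih (by omega)).tail ((hw3 m (by omega) (by omega)).2.1 (by omega) (by omega))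
    exact (h1 l hl le_rfl).trans ((hw3 l (by omega) (by omega)).2.2 rfl)
  · intro h
    obtain ⟨-, w', hw1, hw2, hw3⟩ := walk hG h
    have hs : ((start k p).1 : ℕ) = 0 := rfl
    have hg : ((goal k q).1 : ℕ) = k := rfl
    rw [hs, hg] at hw3
    rw [hs] at hw1
    rw [hg] at hw2
    refine ⟨fun m => if m = 0 then p else if m ≤ l then w' (a + m) else q, if_pos rfl, ?_, ?_⟩
    · show (if 0 + 2 ^ j = 0 then p else if 0 + 2 ^ j ≤ l then w' (a + (0 + 2 ^ j)) else q) = q
      rw [if_neg (by omega), if_neg (by omega)]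
    · intro m _ hm
      refine ⟨fun h0 => ?_, fun h1 h2 => ?_, fun h1 => ?_⟩
      · subst h0
        show Reachable G (start k p) (vx k (a + 1) (if 0 + 1 = 0 then p else
          if 0 + 1 ≤ l then w' (a + (0 + 1)) else q))
        rw [if_neg (by omega), if_pos (by omega)]
        have := of_walk (G := G) w' (b := 0) (c := a + 1) (by omega)
          (fun m h1 h2 => hw3 m h1 (by omega))
        have e : vx k 0 (w' 0) = start k p := by
          rw [hw1, vx_eq (Nat.zero_le _)]; rfl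
        rw [e] at this
        exact this
      · show (vx k (a + m) (if m = 0 then p else if m ≤ l then w' (a + m) else q),
          vx k (a + (m + 1)) (if m + 1 = 0 then p else
            if m + 1 ≤ l then w' (a + (m + 1)) else q)) ∈ G
        rw [if_neg (by omega), if_pos (by omega), if_neg (by omega), if_pos (by omega)]
        exact hw3 (a + m) (Nat.zero_le _) (by omega)
      · subst h1
        show Reachable G (vx k (a + m) (if m = 0 then p else if m ≤ m then w' (a + m) else q))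
          (goal k q)
        rw [if_neg (by omega), if_pos le_rfl]
        have := of_walk (G := G) w' (b := a + m) (c := k) (by omega)
          (fun c h1 h2 => hw3 c (Nat.zero_le _) h2)
        have e : vx k k (w' k) = goal k q := by
          rw [hw2, vx_eq le_rfl]; rfl
        rw [e] at this
        exact this

theorem net_decides (hl : 1 ≤ l) (h₀ : N₀.DecidesOn (Layered k n) (start k p) (goal k q))
    {j : ℕ} (hj : l + 1 ≤ 2 ^ j) :
    (net a l ha hb p q N₀ j).DecidesOn (Layered k n) (start k p) (goal k q) := by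
  intro G hG
  rw [← chain_reach a l p q hl hb hG hj,
    ← RecL_connected N₀.source N₀.sink (BG_connected a l ha hb p q N₀ hl h₀ hG) j 0 p q]
  have h : (net a l ha hb p q N₀ j).Closed G Gᶜ =
      RecL True N₀.source N₀.sink (BG a l ha hb p q N₀ G) j 0 p q := by
    funext z z'
    apply propext
    rw [RecL_union N₀.source N₀.sink (B := BG a l ha hb p q N₀ G) (B1 := Bw a l ha hb p q N₀)
      (B2 := Sum.elim (fun e : {e // e ∈ G} => Bp a l ha hb p q N₀ e.1)
      (fun e : {e // e ∈ Gᶜ} => Bn a l ha hb p q N₀ e.1)) (fun m u v z z' => Iff.rfl)]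
    constructor
    · rintro (h | ⟨e, he, h⟩ | ⟨e, he, h⟩)
      · exact Or.inl h
      · exact Or.inr ⟨Sum.inl ⟨e, he⟩, h⟩
      · exact Or.inr ⟨Sum.inr ⟨e, he⟩, h⟩
    · rintro (h | ⟨e | e, h⟩)
      · exact Or.inl h
      · exact Or.inr (Or.inl ⟨e.1, e.2, h⟩)
      · exact Or.inr (Or.inr ⟨e.1, e.2, h⟩)
  unfold SwitchingNetwork.Connects
  rw [h]
  rfl

theorem head_act {π : Perm (Vtx k n)} {τ : Perm (Fin n)}
    (h1 : ∀ v : Vtx k n, (v.1 : ℕ) ≤ a → π v = v)
    (h2 : ∀ v : Vtx k n, (v.1 : ℕ) = a + 1 → π v = (v.1, τ v.2)) (v : Fin n)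
    (e : Vtx k n × Vtx k n) :
    headMap a ha q (τ v) e = Sum.map (Prod.map π π) id (headMap a ha q v e) := by
  unfold headMap
  by_cases c1 : (e.2.1 : ℕ) = e.1.1 + 1
  · rw [if_pos c1, if_pos c1]
    by_cases c2 : (e.1.1 : ℕ) < a
    · rw [if_pos c2, if_pos c2]
      have e1 := h1 e.1 (by omega)
      have e2 := h1 e.2 (by omega)
      show Sum.inl e = Sum.inl (π e.1, π e.2)
      rw [e1, e2]
    · rw [if_neg c2, if_neg c2]
      by_cases c3 : (e.1.1 : ℕ) = a
      · rw [if_pos c3, if_pos c3]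
        by_cases c4 : e.2.2 = q
        · rw [if_pos c4, if_pos c4]
          have e1 := h1 e.1 (by omega)
          have e2 := h2 ((⟨a + 1, by omega⟩, v) : Vtx k n) rfl
          show Sum.inl _ = Sum.inl (π e.1, π _)
          rw [e1, e2]
        · rw [if_neg c4, if_neg c4]
          rfl
      · rw [if_neg c3, if_neg c3]
        rfl
  · rw [if_neg c1, if_neg c1]
    rfl

theorem tail_act {b : ℕ} (hb : b < k) {π : Perm (Vtx k n)} {τ : Perm (Fin n)}
    (h1 : ∀ v : Vtx k n, b < (v.1 : ℕ) → π v = v)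
    (h2 : ∀ v : Vtx k n, (v.1 : ℕ) = b → π v = (v.1, τ v.2)) (u : Fin n)
    (e : Vtx k n × Vtx k n) :
    tailMap b hb p (τ u) e = Sum.map (Prod.map π π) id (tailMap b hb p u e) := by
  unfold tailMap
  by_cases c1 : (e.2.1 : ℕ) = e.1.1 + 1
  · rw [if_pos c1, if_pos c1]
    by_cases c2 : (e.1.1 : ℕ) < b
    · rw [if_pos c2, if_pos c2]
      rfl
    · rw [if_neg c2, if_neg c2]
      by_cases c3 : (e.1.1 : ℕ) = b
      · rw [if_pos c3, if_pos c3]
        by_cases c4 : e.1.2 = p
        · rw [if_pos c4, if_pos c4]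
          have e1 := h1 e.2 (by omega)
          have e2 := h2 ((⟨b, by omega⟩, u) : Vtx k n) rfl
          show Sum.inl _ = Sum.inl (π _, π e.2)
          rw [e1, e2]
        · rw [if_neg c4, if_neg c4]
          rfl
      · rw [if_neg c3, if_neg c3]
        have e1 := h1 e.1 (by omega)
        have e2 := h1 e.2 (by omega)
        show Sum.inl e = Sum.inl (π e.1, π e.2)
        rw [e1, e2]
  · rw [if_neg c1, if_neg c1]
    rfl

theorem subst_wire {E : Type} {f f' : E → E ⊕ Bool} {g : E → E}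
    (h : ∀ e, f' e = Sum.map g id (f e)) (N : SwitchingNetwork E W₀) (z z' : W₀) :
    (subst f' N).wire z z' ↔ (subst f N).wire z z' := by
  have h1 : ∀ e b, f' e = Sum.inr b ↔ f e = Sum.inr b := by
    intro e b
    rw [h e]
    cases f e <;> simp
  show (_ ∨ _ ∨ _) ↔ (_ ∨ _ ∨ _)
  simp only [h1]

theorem subst_pos {E : Type} {f f' : E → E ⊕ Bool} {g : E → E} (hg : Function.Injective g)
    (h : ∀ e, f' e = Sum.map g id (f e)) (N : SwitchingNetwork E W₀) (e : E) (z z' : W₀) :
    (subst f' N).pos (g e) z z' ↔ (subst f N).pos e z z' := by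
  have h1 : ∀ e₀, f' e₀ = Sum.inl (g e) ↔ f e₀ = Sum.inl e := by
    intro e₀
    rw [h e₀]
    cases f e₀ <;> simp [hg.eq_iff]
  show (∃ e₀, _) ↔ (∃ e₀, _)
  simp only [h1]

theorem subst_neg {E : Type} {f f' : E → E ⊕ Bool} {g : E → E} (hg : Function.Injective g)
    (h : ∀ e, f' e = Sum.map g id (f e)) (N : SwitchingNetwork E W₀) (e : E) (z z' : W₀) :
    (subst f' N).neg (g e) z z' ↔ (subst f N).neg e z z' := by
  have h1 : ∀ e₀, f' e₀ = Sum.inl (g e) ↔ f e₀ = Sum.inl e := by
    intro e₀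
    rw [h e₀]
    cases f e₀ <;> simp [hg.eq_iff]
  show (∃ e₀, _) ↔ (∃ e₀, _)
  simp only [h1]

theorem net_invariant (hl : 1 ≤ l) {j : ℕ} (hj : l + 1 ≤ 2 ^ j) :
    LayerInvariant (net a l ha hb p q N₀ j) a l := by
  intro π hπ
  obtain ⟨σ', hσ'⟩ := exists_spread hb hπ
  obtain ⟨σ, hσ0, hσ1⟩ : ∃ σ : ℕ → Perm (Fin n), (∀ m, m = 0 ∨ l < m → σ m = 1) ∧
      ∀ m, 1 ≤ m → m ≤ l → ∀ v : Vtx k n, (v.1 : ℕ) = a + m → π v = (v.1, σ m v.2) := by
    refine ⟨fun m => if h : 1 ≤ m ∧ m ≤ l then σ' ⟨m - 1, by omega⟩ else 1, ?_, ?_⟩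
    · intro m hm
      exact dif_neg (by omega)
    · intro m h1 h2 v hv
      show π v = (v.1, (if h : 1 ≤ m ∧ m ≤ l then σ' ⟨m - 1, by omega⟩ else 1 : Perm (Fin n)) v.2)
      rw [dif_pos ⟨h1, h2⟩, hσ']
      exact spread_in σ' v ⟨m - 1, by omega⟩ (by simp only; omega)
  have hlow : ∀ v : Vtx k n, (v.1 : ℕ) ≤ a → π v = v := fun v hv => (hπ v).2 (Or.inl hv)
  have hhigh : ∀ v : Vtx k n, a + l < (v.1 : ℕ) → π v = v := fun v hv => (hπ v).2 (Or.inr hv)
  have hlayer : ∀ v : Vtx k n, (π v).1 = v.1 := fun v => (hπ v).1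
  have hinj : Function.Injective (Prod.map π π) := π.injective.prodMap π.injective
  have hhead : ∀ v e, headMap a ha q (σ 1 v) e =
      Sum.map (Prod.map π π) id (headMap a ha q v e) :=
    head_act a ha q hlow (hσ1 1 le_rfl hl)
  have htail : ∀ u e, tailMap (a + l) hb p (σ l u) e =
      Sum.map (Prod.map π π) id (tailMap (a + l) hb p u e) :=
    tail_act p hb hhigh (hσ1 l hl le_rfl)
  have hp : σ 0 p = p := by rw [hσ0 0 (Or.inl rfl)]; rfl
  have hq : σ (0 + 2 ^ j) q = q := by rw [hσ0 (0 + 2 ^ j) (Or.inr (by omega))]; rfl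
  have hBw : ∀ m u v z z', Bw a l ha hb p q N₀ m (σ m u) (σ (m + 1) v) z z' ↔
      Bw a l ha hb p q N₀ m u v z z' := by
    intro m u v z z'
    unfold Bw
    refine or_congr (and_congr_right fun h => ?_) (or_congr (and_congr_right fun h => ?_) Iff.rfl)
    · subst h
      exact subst_wire (hhead v) N₀ z z'
    · subst h
      exact subst_wire (htail u) N₀ z z'
  have hmid : ∀ m, 1 ≤ m → m ≤ l → ∀ (v : Vtx k n) (u : Fin n),
      (((π v).1 : ℕ) = a + m ∧ (π v).2 = σ m u) ↔ ((v.1 : ℕ) = a + m ∧ v.2 = u) := by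
    intro m h1 h2 v u
    rw [hlayer]
    refine and_congr_right fun h => ?_
    rw [hσ1 m h1 h2 v h]
    exact (σ m).injective.eq_iff
  have hBp : ∀ e m u v z z', Bp a l ha hb p q N₀ (π e.1, π e.2) m (σ m u) (σ (m + 1) v) z z' ↔
      Bp a l ha hb p q N₀ e m u v z z' := by
    intro e m u v z z'
    unfold Bp
    refine or_congr (and_congr_right fun h => ?_) (or_congr (and_congr_right fun h1 =>
      and_congr_right fun h2 => and_congr_right fun _ => and_congr_right fun _ =>
      and_congr ?_ ?_) (and_congr_right fun h => ?_))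
    · subst h
      exact subst_pos hinj (hhead v) N₀ e z z'
    · exact hmid m h1 h2.le e.1 u
    · exact hmid (m + 1) (by omega) h2 e.2 v
    · subst h
      exact subst_pos hinj (htail u) N₀ e z z'
  have hBn : ∀ e m u v z z', Bn a l ha hb p q N₀ (π e.1, π e.2) m (σ m u) (σ (m + 1) v) z z' ↔
      Bn a l ha hb p q N₀ e m u v z z' := by
    intro e m u v z z'
    unfold Bn
    refine or_congr (and_congr_right fun h => ?_) (and_congr_right fun h => ?_)
    · subst h
      exact subst_neg hinj (hhead v) N₀ e z z'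
    · subst h
      exact subst_neg hinj (htail u) N₀ e z z'
  refine ⟨actL W₀ σ j 0, actL_stt σ _ j 0, actL_enn σ _ j 0, fun v w => ?_, fun e v w => ?_,
    fun e v w => ?_⟩
  · have := RecL_act True N₀.source N₀.sink σ hBw j 0 p q v w
    rw [hp, hq] at this
    exact this
  · have := RecL_act False N₀.source N₀.sink σ (hBp e) j 0 p q v w
    rw [hp, hq] at this
    exact this
  · have := RecL_act False N₀.source N₀.sink σ (hBn e) j 0 p q v w
    rw [hp, hq] at this
    exact this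

theorem net_avoids (hN : N₀.Avoids Set.univ) (j : ℕ) :
    (net a l ha hb p q N₀ j).Avoids Set.univ := by
  intro e _ v w
  refine RecL_empty N₀.source N₀.sink (B := Bn a l ha hb p q N₀ e) ?_ j 0 p q v w
  rintro m u v z z' (⟨_, e₀, _, h⟩ | ⟨_, e₀, _, h⟩)
  · exact hN e₀ (Set.mem_univ _) z z' h
  · exact hN e₀ (Set.mem_univ _) z z' h

end net

theorem two_le_card [Fintype W₀] {p q : Fin n} (hk : 0 < k)
    (N₀ : SwitchingNetwork (Vtx k n × Vtx k n) W₀)
    (h₀ : N₀.DecidesOn (Layered k n) (start k p) (goal k q)) : 2 ≤ Fintype.card W₀ := by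
  have hne : N₀.source ≠ N₀.sink := by
    intro hs
    have h1 := (h₀ ∅ (fun e he => absurd he (Set.notMem_empty e))).1 (by
      unfold SwitchingNetwork.Connects
      rw [hs]
      exact Relation.EqvGen.refl _)
    obtain ⟨_, w, _, _, h3⟩ := walk (fun e he => absurd he (Set.notMem_empty e)) h1
    have h4 : ((start k p).1 : ℕ) < (goal k q).1 := hk
    exact absurd (h3 _ le_rfl h4) (Set.notMem_empty _)
  exact Fintype.one_lt_card_iff.2 ⟨_, _, hne⟩

end UpperAux

theorem upper {k n a l : ℕ} (hkl : a + l < k) (p q : Fin n) {W₀ : Type} [Fintype W₀]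
    (N₀ : SwitchingNetwork (Vtx k n × Vtx k n) W₀)
    (h₀ : N₀.DecidesOn (Layered k n) (start k p) (goal k q)) :
    ∃ (W : Type) (_ : Fintype W) (N : SwitchingNetwork (Vtx k n × Vtx k n) W),
      LayerInvariant N a l ∧ N.DecidesOn (Layered k n) (start k p) (goal k q) ∧
      (N₀.Avoids Set.univ → N.Avoids Set.univ) ∧
      Fintype.card W ≤ Fintype.card W₀ * (2 * n + 1) ^ Nat.clog 2 (l + 1) := by
  rcases Nat.eq_zero_or_pos l with hl | hl
  · subst hl
    refine ⟨W₀, inferInstance, N₀, ?_, h₀, id, ?_⟩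
    · intro π hπ
      have := inside_zero hπ
      subst this
      exact ⟨1, rfl, rfl, fun _ _ => Iff.rfl, fun _ _ _ => Iff.rfl, fun _ _ _ => Iff.rfl⟩
    · simp
  · have ha : a < k := by omega
    have hj : l + 1 ≤ 2 ^ Nat.clog 2 (l + 1) := Nat.le_pow_clog (by norm_num) _
    refine ⟨Sym.StG W₀ (Fin n) (Nat.clog 2 (l + 1)), inferInstance,
      UpperAux.net a l ha hkl p q N₀ (Nat.clog 2 (l + 1)),
      UpperAux.net_invariant a l ha hkl p q N₀ hl hj,
      UpperAux.net_decides a l ha hkl p q N₀ hl h₀ hj,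
      fun hN => UpperAux.net_avoids a l ha hkl p q N₀ hN _, ?_⟩
    have h2 := UpperAux.two_le_card (by omega) N₀ h₀
    have := Sym.card_StG_le (W₀ := W₀) (X := Fin n) h2 (Nat.clog 2 (l + 1))
    rwa [Fintype.card_fin] at this

end Pool.Agent.Lib.Pe46137L
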