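import Pool.Agent.Lib.Pe46137L.Lower
import Pool.Agent.Lib.Pe46137L.Full
import Pool.Agent.Lib.Pe46137L.Upper
import Pool.Agent.Lib.Pe46137.Sym.PriceCost

/-!
The least number of states of networks that are invariant inside `l` consecutive layers.
-/

namespace Pool.Agent.Lib.Pe46137L

open Pool.Agent.Lib.Pe46137

theorem Inside.mono {k n a l a' l' : ℕ} {π : Equiv.Perm (Vtx k n)} (h : Inside a' l' π)
    (ha : a ≤ a') (hl : a' + l' ≤ a + l) : Inside a l π :=
  fun v => ⟨(h v).1, fun hv => (h v).2 (by omega)⟩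

theorem LayerInvariant.mono {k n a l a' l' : ℕ} {W : Type*}
    {N : SwitchingNetwork (Vtx k n × Vtx k n) W} (h : LayerInvariant N a l) (ha : a ≤ a')
    (hl : a' + l' ≤ a + l) : LayerInvariant N a' l' := fun π hπ => h π (hπ.mono ha hl)

theorem GuardedInvariant.mono {k n a l a' l' : ℕ} {W : Type*}
    {N : Sym.Network (Vtx k n) W} (h : GuardedInvariant N a l) (ha : a ≤ a')
    (hl : a' + l' ≤ a + l) : GuardedInvariant N a' l' := fun π hπ => h π (hπ.mono ha hl)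

theorem toNet_guarded {k n a l : ℕ} {W : Type*} {N : SwitchingNetwork (Vtx k n × Vtx k n) W}
    (h : LayerInvariant N a l) : GuardedInvariant (Sym.toNet N) a l := fun π hπ =>
  let ⟨ρ, hρ⟩ := h π hπ
  ⟨ρ, Sym.toNet_lifts hρ⟩

theorem layerInvariant_zero {k n a : ℕ} {W : Type*} (N : SwitchingNetwork (Vtx k n × Vtx k n) W) :
    LayerInvariant N a 0 := by
  intro π hπ
  rw [inside_zero hπ]
  exact ⟨1, rfl, rfl, fun _ _ => Iff.rfl, fun _ _ _ => Iff.rfl, fun _ _ _ => Iff.rfl⟩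

/-- `r = ⌈log₂ (l + 1)⌉` satisfies `2 ^ (r - 1) ≤ l` -/
theorem pow_pred_le {l r : ℕ} (h : r + 1 = Nat.clog 2 (l + 1)) : 2 ^ r ≤ l := by
  have h1 : 2 ^ r < l + 1 := by
    by_contra hc
    push Not at hc
    have := Nat.clog_le_of_le_pow hc
    omega
  omega

theorem lower_clog {k n a l : ℕ} (hkl : a + l < k) (p q : Fin n) {W : Type} [Fintype W]
    (N : Sym.Network (Vtx k n) W) (hN : GuardedInvariant N a l)
    (hdec : ∀ G ∈ Layered k n, (N.Accepts G ↔ Reachable G (start k p) (goal k q)))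
    (hn : 20 * Nat.clog 2 (l + 1) ^ 2 * (Nat.log 2 n + 1) ≤ n) :
    n ^ Nat.clog 2 (l + 1) ≤ Fintype.card W := by
  rcases Nat.eq_zero_or_pos (Nat.clog 2 (l + 1)) with h | h
  · rw [h, pow_zero]
    exact Fintype.card_pos_iff.2 ⟨N.source⟩
  · obtain ⟨d, hd⟩ : ∃ d, d + 1 = Nat.clog 2 (l + 1) := ⟨Nat.clog 2 (l + 1) - 1, by omega⟩
    rw [← hd] at hn ⊢
    exact lower hkl p q N hN hdec (pow_pred_le hd) hn

theorem layerCost_le {k n a l : ℕ} {p q : Fin n} {W : Type} [iW : Fintype W]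
    (N : SwitchingNetwork (Vtx k n × Vtx k n) W) (h1 : LayerInvariant N a l)
    (h2 : N.DecidesOn (Layered k n) (start k p) (goal k q)) :
    layerCost k n a l p q ≤ Fintype.card W :=
  Nat.sInf_le ⟨W, iW, N, rfl, h1, h2⟩

theorem layerCost_spec {k n a l : ℕ} (hkl : a + l < k) (p q : Fin n) :
    ∃ (W : Type) (_ : Fintype W) (N : SwitchingNetwork (Vtx k n × Vtx k n) W),
      Fintype.card W = layerCost k n a l p q ∧ LayerInvariant N a l ∧
      N.DecidesOn (Layered k n) (start k p) (goal k q) := by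
  have hne : {m | ∃ (W : Type) (_ : Fintype W) (N : SwitchingNetwork (Vtx k n × Vtx k n) W),
      Fintype.card W = m ∧ LayerInvariant N a l ∧
      N.DecidesOn (Layered k n) (start k p) (goal k q)}.Nonempty := by
    obtain ⟨W, iW, N, h1, h2, _, _⟩ := full (by omega : 0 < k) p q
    exact ⟨_, W, iW, N, rfl, h1.mono (by omega) (by omega), h2⟩
  exact Nat.sInf_mem hne

theorem layerCost_mono {k n a l a' l' : ℕ} (hkl : a + l < k) (ha : a ≤ a')
    (hl : a' + l' ≤ a + l) (p q : Fin n) : layerCost k n a' l' p q ≤ layerCost k n a l p q := by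
  obtain ⟨W, iW, N, h1, h2, h3⟩ := layerCost_spec hkl p q
  rw [← h1]
  exact layerCost_le N (h2.mono ha hl) h3

theorem layerCost_zero {k n a l : ℕ} (hkl : a + l < k) (p q : Fin n) :
    layerCost k n 0 0 p q ≤ layerCost k n a l p q := by
  obtain ⟨W, iW, N, h1, _, h3⟩ := layerCost_spec hkl p q
  rw [← h1]
  exact layerCost_le N (layerInvariant_zero N) h3

theorem layerCost_upper {k n a l : ℕ} (hkl : a + l < k) (p q : Fin n) :
    layerCost k n a l p q ≤ layerCost k n 0 0 p q * (2 * n + 1) ^ Nat.clog 2 (l + 1) := by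
  obtain ⟨W₀, iW, N₀, hc, _, h0⟩ := layerCost_spec (by omega : 0 + 0 < k) p q
  obtain ⟨W, iW', N, h1, h2, _, h4⟩ := upper hkl p q N₀ h0
  rw [← hc]
  exact le_trans (layerCost_le N h1 h2) h4

theorem layerCost_lower {k n a l : ℕ} (hkl : a + l < k) (p q : Fin n)
    (hn : 20 * Nat.clog 2 (l + 1) ^ 2 * (Nat.log 2 n + 1) ≤ n) :
    n ^ Nat.clog 2 (l + 1) ≤ layerCost k n a l p q := by
  obtain ⟨W, iW, N, h1, h2, h3⟩ := layerCost_spec hkl p q
  rw [← h1]
  exact lower_clog hkl p q (Sym.toNet N) (toNet_guarded h2)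
    (fun G hG => (Sym.toNet_accepts N G).trans (h3 G hG)) hn

theorem exists_large (c : ℕ) : ∃ m₀, ∀ m, m₀ ≤ m →
    20 * (c + 1) ^ 2 * (Nat.log 2 (m + 2) + 1) ≤ m + 2 := by
  set A : ℕ := 20 * (c + 1) ^ 2 with hA
  refine ⟨2 ^ (2 * A), fun m hm => ?_⟩
  set L := Nat.log 2 (m + 2) with hL
  have h1 : 2 ^ L ≤ m + 2 := Nat.pow_log_le_self 2 (by omega)
  have h2 : 2 * A ≤ L := by
    rw [hL]
    exact (Nat.le_log_iff_pow_le (by norm_num) (by omega)).2 (by omega)
  have h3 : ∀ B C : ℕ, 1 ≤ B → 2 * B ≤ C → B * (C + 1) ≤ 2 ^ C := by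
    intro B C hB hC
    induction C, hC using Nat.le_induction with
    | base =>
      have h4 : ∀ B : ℕ, 1 ≤ B → B * (2 * B + 1) ≤ 2 ^ (2 * B) := by
        intro B hB
        induction B, hB using Nat.le_induction with
        | base => norm_num
        | succ B hB ih =>
          have e1 : 2 ^ (2 * (B + 1)) = 4 * 2 ^ (2 * B) := by
            rw [show 2 * (B + 1) = 2 * B + 2 by ring, pow_add]; ring
          rw [e1]
          nlinarith
      exact h4 B hB
    | succ C hC ih =>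
      have e1 : 2 ^ (C + 1) = 2 * 2 ^ C := by rw [pow_succ]; ring
      rw [e1]
      nlinarith
  refine le_trans (h3 A L ?_ h2) h1
  rw [hA]
  have : 1 ≤ (c + 1) ^ 2 := Nat.one_le_pow _ _ (by omega)
  omega

theorem poly_iff (k a l : ℕ → ℕ) (hkl : ∀ m, a m + l m < k m) (p q : ∀ m : ℕ, Fin (m + 2)) :
    (∃ c : ℕ, ∀ m, layerCost (k m) (m + 2) (a m) (l m) (p m) (q m) ≤ (m + 2) ^ c) ↔
      (∃ c : ℕ, ∀ m, layerCost (k m) (m + 2) 0 0 (p m) (q m) ≤ (m + 2) ^ c) ∧
        ∃ b : ℕ, ∀ m, l m ≤ b := by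
  constructor
  · rintro ⟨c, hc⟩
    refine ⟨⟨c, fun m => le_trans (layerCost_zero (hkl m) _ _) (hc m)⟩, ?_⟩
    obtain ⟨m₀, hm₀⟩ := exists_large c
    have hlarge : ∀ m, m₀ ≤ m → l m < 2 ^ c := by
      intro m hm
      by_contra hlt
      push Not at hlt
      obtain ⟨W, iW, N, h1, h2, h3⟩ := layerCost_spec (hkl m) (p m) (q m)
      have h4 := lower (hkl m) (p m) (q m) (Sym.toNet N) (toNet_guarded h2)
        (fun G hG => (Sym.toNet_accepts N G).trans (h3 G hG)) hlt (hm₀ m hm)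
      rw [h1] at h4
      have h5 := le_trans h4 (hc m)
      exact absurd h5 (not_le.2 (Nat.pow_lt_pow_right (by omega) (by omega)))
    refine ⟨2 ^ c + ∑ m ∈ Finset.range m₀, l m, fun m => ?_⟩
    rcases Nat.lt_or_ge m m₀ with h | h
    · exact le_trans (Finset.single_le_sum (f := l) (fun i _ => Nat.zero_le _)
        (Finset.mem_range.2 h)) (Nat.le_add_left _ _)
    · have := hlarge m h
      omega
  · rintro ⟨⟨c, hc⟩, b, hb⟩
    refine ⟨c + 3 * Nat.clog 2 (b + 1), fun m => ?_⟩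
    have h1 : 2 * (m + 2) + 1 ≤ (m + 2) ^ 3 := by
      have e1 : (m + 2) ^ 3 = m ^ 3 + 6 * m ^ 2 + 12 * m + 8 := by ring
      rw [e1]
      have e2 := Nat.zero_le (m ^ 3 + 6 * m ^ 2)
      omega
    have h2 : Nat.clog 2 (l m + 1) ≤ Nat.clog 2 (b + 1) :=
      Nat.clog_mono_right 2 (by have := hb m; omega)
    calc layerCost (k m) (m + 2) (a m) (l m) (p m) (q m)
        ≤ layerCost (k m) (m + 2) 0 0 (p m) (q m) *
          (2 * (m + 2) + 1) ^ Nat.clog 2 (l m + 1) := layerCost_upper (hkl m) _ _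
      _ ≤ (m + 2) ^ c * ((m + 2) ^ 3) ^ Nat.clog 2 (l m + 1) :=
        Nat.mul_le_mul (hc m) (Nat.pow_le_pow_left h1 _)
      _ ≤ (m + 2) ^ c * ((m + 2) ^ 3) ^ Nat.clog 2 (b + 1) :=
        Nat.mul_le_mul_left _ (Nat.pow_le_pow_right (by positivity) h2)
      _ = (m + 2) ^ (c + 3 * Nat.clog 2 (b + 1)) := by rw [← pow_mul, ← pow_add]

end Pool.Agent.Lib.Pe46137L
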