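import Pool.Agent.Lib.Pe46137L.CutDefs

/-!
MODULE Cut (about 2 h). The cuts of the host digraph. Adaptation of
Lib/Pe46137/Sym/Layered.lean (`reach_K`, `not_reach_Gx`, `exists_cut`, `ren_Gx`, `known_congr`
there; read its proofs, they carry over nearly verbatim).

`known_congr`: induction on the number of vertices where `x` and `x'` differ. If they differ at a
vertex, its layer is one of `a + 1, …, a + l` (`low`, `high`), say the layer of `blk hkl i`; the
sets `{j | x (blk i j)}` and `{j | x' (blk i j)}` have the same size `h` and differ, so there are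
`b` with `x = true`, `x' = false` and `c` with `x = false`, `x' = true`, both outside `T i`, and a
third point `e` outside `T i` (`(T i).card + 3 ≤ n`). Let `τ` be one of the two 3-cycles
`cyc b c e`, `cyc c b e` of `b, c, e` such that `x' ' = x ∘ spread (mulSingle i τ)` has values
`false` at `b`, `true` at `c` and `x (blk i e)` at `e` (if `x e = true` one needs `τ b = c`,
`τ c = e`, `τ e = b`, otherwise `τ c = b`, `τ b = e`, `τ e = c`). Then `x' '` is balanced, agrees
with `x'` on the `T`'s, differs from `x'` at fewer vertices, and `Known N (CutG x) w ↔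
Known N (CutG x' ') w` by `Sym.Network.Lifts.known` (`ρ w = w`) and `ren_cutG`.
-/

namespace Pool.Agent.Lib.Pe46137L

open Finset Pool.Agent.Lib.Pe46137

variable {k n a l h : ℕ} {p q : Fin n}

theorem reach_host (hkl : a + l < k) :
    Reachable (Host (k := k) a l p q) (start k p) (goal k q) := by
  have key : ∀ i (hi : i ≤ k), Reachable (Host (k := k) a l p q) (start k p)
      ((⟨i, Nat.lt_succ_of_le hi⟩, if i ≤ a then p else q) : Vtx k n) := by
    intro i
    induction i with
    | zero =>
      intro hi
      have : ((⟨0, Nat.lt_succ_of_le hi⟩, if 0 ≤ a then p else q) : Vtx k n) = start k p := by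
        simp [start]
      rw [this]
      exact Relation.ReflTransGen.refl
    | succ i ih =>
      intro hi
      refine (ih (by omega)).tail ?_
      refine ⟨rfl, ⟨fun h => if_pos h, fun h => if_neg ?_⟩, ⟨fun h => if_pos h, fun h => if_neg ?_⟩⟩
      · simp only at h
        omega
      · simp only at h
        omega
  have h := key k le_rfl
  have h2 : ((⟨k, Nat.lt_succ_of_le le_rfl⟩, if k ≤ a then p else q) : Vtx k n) = goal k q := by
    rw [if_neg (by omega)]
    rfl
  rwa [h2] at h

theorem not_reach_cutG (hkl : a + l < k) {x : Vtx k n → Bool} (hx : Balanced a l h x) :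
    ¬ Reachable (CutG a l p q x) (start k p) (goal k q) := by
  intro hr
  have key : ∀ v, Reachable (CutG a l p q x) (start k p) v → x v = true := by
    intro v hv
    induction hv with
    | refl => exact hx.low _ (Nat.zero_le _)
    | tail _ hb ih =>
      by_contra hc
      exact hb.2 ⟨ih, by simpa using hc⟩
  have h1 := key _ hr
  have h2 := hx.high (goal k q) (by simpa [goal] using hkl)
  rw [h2] at h1
  exact absurd h1 (by simp)

/-- a balanced cut with prescribed values, constant on every layer, at few vertices -/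
theorem exists_cut (hkl : a + l < k) (hn : 2 * h ≤ n) (Z : Fin l → Finset (Fin n))
    (hZ : ∀ i, (Z i).card ≤ h) (y : Fin l → Bool) :
    ∃ x : Vtx k n → Bool, Balanced a l h x ∧ ∀ i, ∀ j ∈ Z i, x (blk hkl i j) = y i := by
  classical
  have hA : ∀ i : Fin l, ∃ A : Finset (Fin n), A.card = h ∧ ∀ j ∈ Z i, (j ∈ A ↔ y i = true) := by
    intro i
    by_cases hy : y i = true
    · obtain ⟨A, h1, h2⟩ := Finset.exists_superset_card_eq (hZ i)
        (by rw [Fintype.card_fin]; omega)
      exact ⟨A, h2, fun j hj => ⟨fun _ => hy, fun _ => h1 hj⟩⟩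
    · have hc : h ≤ ((Z i)ᶜ).card := by
        rw [card_compl, Fintype.card_fin]
        have := hZ i
        omega
      obtain ⟨A, h1, h2⟩ := exists_subset_card_eq hc
      exact ⟨A, h2, fun j hj => ⟨fun h3 => absurd hj (mem_compl.1 (h1 h3)), fun h3 => absurd h3 hy⟩⟩
  choose A hA1 hA2 using hA
  let x : Vtx k n → Bool := fun v => if (v.1 : ℕ) ≤ a then true else
    if h' : (v.1 : ℕ) - (a + 1) < l then decide (v.2 ∈ A ⟨(v.1 : ℕ) - (a + 1), h'⟩) else false
  have hxi : ∀ (i : Fin l) (v : Vtx k n), (v.1 : ℕ) = a + 1 + i → x v = decide (v.2 ∈ A i) := by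
    intro i v hv
    have h1 : ¬ ((v.1 : ℕ) ≤ a) := by omega
    have h2 : (v.1 : ℕ) - (a + 1) < l := by have := i.2; omega
    have h3 : (⟨(v.1 : ℕ) - (a + 1), h2⟩ : Fin l) = i := Fin.ext (by simp only; omega)
    show (if (v.1 : ℕ) ≤ a then true else
      if h' : (v.1 : ℕ) - (a + 1) < l then decide (v.2 ∈ A ⟨(v.1 : ℕ) - (a + 1), h'⟩) else false) = _
    rw [if_neg h1, dif_pos h2, h3]
  refine ⟨x, ⟨?_, ?_, ?_⟩, ?_⟩
  · intro v hv
    exact if_pos hv
  · intro v hv
    have h1 : ¬ ((v.1 : ℕ) ≤ a) := by omega
    have h2 : ¬ ((v.1 : ℕ) - (a + 1) < l) := by omega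
    show (if (v.1 : ℕ) ≤ a then true else
      if h' : (v.1 : ℕ) - (a + 1) < l then decide (v.2 ∈ A ⟨(v.1 : ℕ) - (a + 1), h'⟩) else false) = _
    rw [if_neg h1, dif_neg h2]
  · intro c hc1 hc2
    have hc3 : (c : ℕ) - (a + 1) < l := by omega
    rw [← hA1 ⟨(c : ℕ) - (a + 1), hc3⟩]
    congr 1
    ext j
    rw [mem_filter, hxi ⟨(c : ℕ) - (a + 1), hc3⟩ (c, j) (by simp only; omega)]
    simp
  · intro i j hj
    rw [hxi i (blk hkl i j) rfl]
    show decide (j ∈ A i) = y i
    have := hA2 i j hj
    by_cases hy : y i = true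
    · rw [hy, decide_eq_true_eq]
      exact this.2 hy
    · have hy' : y i = false := by simpa using hy
      rw [hy', decide_eq_false_iff_not]
      exact fun h3 => hy (this.1 h3)

namespace CutAux

theorem usable_spread (σ : Fin l → Equiv.Perm (Fin n)) (v : Vtx k n) :
    Usable a l p q (spread k a l σ v) ↔ Usable a l p q v := by
  by_cases hv : (v.1 : ℕ) ≤ a ∨ a + l < v.1
  · rw [spread_out σ v hv]
  · have h1 : (spread k a l σ v).1 = v.1 := rfl
    unfold Usable
    rw [h1]
    push Not at hv
    constructor
    · intro _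
      exact ⟨fun h => absurd h (by omega), fun h => absurd h (by omega)⟩
    · intro _
      exact ⟨fun h => absurd h (by omega), fun h => absurd h (by omega)⟩

end CutAux

theorem ren_cutG (σ : Fin l → Equiv.Perm (Fin n)) (x : Vtx k n → Bool) :
    Sym.ren (spread k a l σ) (CutG a l p q x) =
      CutG a l p q (fun v => x (spread k a l σ v)) := by
  ext e
  change ((((spread k a l σ e.2).1 : ℕ) = (spread k a l σ e.1).1 + 1 ∧
    Usable a l p q (spread k a l σ e.1) ∧ Usable a l p q (spread k a l σ e.2)) ∧ _) ↔ _
  rw [CutAux.usable_spread, CutAux.usable_spread]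
  rfl

/-- the layer of a vertex of the block -/
private theorem eq_blk (hkl : a + l < k) (v : Vtx k n) (i : Fin l) (hi : (v.1 : ℕ) = a + 1 + i) :
    v = blk hkl i v.2 := Prod.ext (Fin.ext hi) rfl

theorem known_congr (hkl : a + l < k) {W : Type*} {N : Sym.Network (Vtx k n) W} {w : W}
    {T : Fin l → Finset (Fin n)} (hTn : ∀ i, (T i).card + 3 ≤ n)
    (hT : ∀ i, ∀ b c e, b ∉ T i → c ∉ T i → e ∉ T i → b ≠ c → c ≠ e → b ≠ e →
      ∃ ρ, N.Lifts (spread k a l (Pi.mulSingle i (Sym.cyc b c e))) ρ ∧ ρ w = w)
    {x x' : Vtx k n → Bool} (hx : Balanced a l h x) (hx' : Balanced a l h x')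
    (hag : ∀ i, ∀ j ∈ T i, x (blk hkl i j) = x' (blk hkl i j)) :
    Sym.Known N (CutG a l p q x) w ↔ Sym.Known N (CutG a l p q x') w := by
  suffices H : ∀ (m : ℕ) (x : Vtx k n → Bool), Balanced a l h x →
      (∀ i, ∀ j ∈ T i, x (blk hkl i j) = x' (blk hkl i j)) →
      (univ.filter (fun v => x v ≠ x' v)).card ≤ m →
      (Sym.Known N (CutG a l p q x) w ↔ Sym.Known N (CutG a l p q x') w) from
    H _ x hx hag le_rfl
  clear hag hx x
  intro m
  induction m using Nat.strong_induction_on with
  | _ m ih =>
    intro x hx hag hm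
    by_cases hD : ∀ v, x v = x' v
    · have : x = x' := funext hD
      rw [this]
    · push Not at hD
      obtain ⟨v₀, hv₀⟩ := hD
      have hlay : ¬ ((v₀.1 : ℕ) ≤ a ∨ a + l < v₀.1) := by
        rintro (h1 | h1)
        · exact hv₀ (by rw [hx.low _ h1, hx'.low _ h1])
        · exact hv₀ (by rw [hx.high _ h1, hx'.high _ h1])
      push Not at hlay
      obtain ⟨i, hi⟩ : ∃ i : Fin l, (v₀.1 : ℕ) = a + 1 + i :=
        ⟨⟨(v₀.1 : ℕ) - (a + 1), by omega⟩, by simp only; omega⟩
      have hilt := i.2
      set A := univ.filter (fun j : Fin n => x (blk hkl i j) = true) with hA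
      set A' := univ.filter (fun j : Fin n => x' (blk hkl i j) = true) with hA'
      have hcA : A.card = h := hx.half _ (by simp only; omega) (by simp only; omega)
      have hcA' : A'.card = h := hx'.half _ (by simp only; omega) (by simp only; omega)
      have hv₀b := eq_blk hkl v₀ i hi
      have hne : A ≠ A' := by
        intro h0
        have h1 : v₀.2 ∈ A ↔ v₀.2 ∈ A' := by rw [h0]
        simp only [hA, hA', mem_filter, mem_univ, true_and] at h1
        rw [← hv₀b] at h1
        apply hv₀
        rcases Bool.eq_false_or_eq_true (x v₀) with h2 | h2 <;>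
          rcases Bool.eq_false_or_eq_true (x' v₀) with h3 | h3 <;>
          rw [h2, h3] at h1 <;> rw [h2, h3] <;> simp at h1
      have h1 : (A \ A').Nonempty := by
        rw [sdiff_nonempty]
        intro h0
        exact hne (eq_of_subset_of_card_le h0 (by omega))
      have h2 : (A' \ A).Nonempty := by
        rw [sdiff_nonempty]
        intro h0
        exact hne (eq_of_subset_of_card_le h0 (by omega)).symm
      obtain ⟨b, hb⟩ := h1
      obtain ⟨c, hc⟩ := h2
      simp only [hA, hA', mem_sdiff, mem_filter, mem_univ, true_and] at hb hc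
      obtain ⟨hxb, hx'b⟩ := hb
      obtain ⟨hx'c, hxc⟩ := hc
      have hx'b' : x' (blk hkl i b) = false := by simpa using hx'b
      have hxc' : x (blk hkl i c) = false := by simpa using hxc
      have hbc : b ≠ c := by
        intro h0
        rw [h0, hxc'] at hxb
        exact absurd hxb (by simp)
      obtain ⟨e, he⟩ : ((univ : Finset (Fin n)) \ (insert b (insert c (T i)))).Nonempty := by
        rw [← card_pos]
        have h1 := le_card_sdiff (insert b (insert c (T i))) (univ : Finset (Fin n))
        rw [card_univ, Fintype.card_fin] at h1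
        have h2 := card_insert_le b (insert c (T i))
        have h3 := card_insert_le c (T i)
        have h4 := hTn i
        omega
      rw [mem_sdiff, mem_insert, mem_insert, not_or, not_or] at he
      obtain ⟨-, heb, hec, heT⟩ := he
      have hbT : b ∉ T i := by
        intro h0
        have := hag i b h0
        rw [hxb, hx'b'] at this
        exact absurd this (by simp)
      have hcT : c ∉ T i := by
        intro h0
        have := hag i c h0
        rw [hxc', hx'c] at this
        exact absurd this (by simp)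
      obtain ⟨τ, hτρ, hτb, hτc, hτe, hτo⟩ : ∃ τ : Equiv.Perm (Fin n),
          (∃ ρ, N.Lifts (spread k a l (Pi.mulSingle i τ)) ρ ∧ ρ w = w) ∧
          x (blk hkl i (τ b)) = false ∧ x (blk hkl i (τ c)) = true ∧
          x (blk hkl i (τ e)) = x (blk hkl i e) ∧
          (∀ z, z ≠ b → z ≠ c → z ≠ e → τ z = z) := by
        cases hxe : x (blk hkl i e) with
        | true =>
          refine ⟨Sym.cyc b c e, hT i b c e hbT hcT heT hbc (Ne.symm hec) (Ne.symm heb), ?_, ?_, ?_, ?_⟩
          · rw [Sym.cyc_a hbc (Ne.symm heb)]; exact hxc'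
          · rw [Sym.cyc_b (Ne.symm heb) (Ne.symm hec)]; exact hxe
          · rw [Sym.cyc_c]; exact hxb
          · intro z h1 h2 h3
            exact Sym.cyc_other h1 h2 h3
        | false =>
          refine ⟨Sym.cyc c b e, hT i c b e hcT hbT heT hbc.symm (Ne.symm heb) (Ne.symm hec), ?_, ?_, ?_, ?_⟩
          · rw [Sym.cyc_b (Ne.symm hec) (Ne.symm heb)]; exact hxe
          · rw [Sym.cyc_a hbc.symm (Ne.symm hec)]; exact hxb
          · rw [Sym.cyc_c]; exact hxc'
          · intro z h1 h2 h3
            exact Sym.cyc_other h2 h1 h3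
      obtain ⟨σ, hσ⟩ : ∃ σ : Fin l → Equiv.Perm (Fin n), Pi.mulSingle i τ = σ := ⟨_, rfl⟩
      have hσi : σ i = τ := by rw [← hσ, Pi.mulSingle_eq_same]
      have hσn : ∀ i', i' ≠ i → σ i' = 1 := fun i' h0 => by rw [← hσ, Pi.mulSingle_eq_of_ne h0]
      rw [hσ] at hτρ
      have hk1 : Sym.Known N (CutG a l p q x) w ↔
          Sym.Known N (CutG a l p q (fun v => x (spread k a l σ v))) w := by
        obtain ⟨ρ, hρ, hρw⟩ := hτρ
        have := hρ.known (CutG a l p q x) w
        rw [hρw, ren_cutG] at this
        exact this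
      rw [hk1]
      have hsp : ∀ (i' : Fin l) (j : Fin n), spread k a l σ (blk hkl i' j) = blk hkl i' (σ i' j) :=
        fun i' j => spread_in σ (blk hkl i' j) i' rfl
      have hsp2 : ∀ v : Vtx k n, (v.1 : ℕ) ≠ a + 1 + i → spread k a l σ v = v := by
        intro v hv
        by_cases hv2 : (v.1 : ℕ) ≤ a ∨ a + l < v.1
        · exact spread_out σ v hv2
        · push Not at hv2
          have h0 : (v.1 : ℕ) = a + 1 + (⟨(v.1 : ℕ) - (a + 1), by omega⟩ : Fin l) := by
            simp only; omega
          have h1 : (⟨(v.1 : ℕ) - (a + 1), by omega⟩ : Fin l) ≠ i := by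
            intro h3
            rw [h3] at h0
            exact hv h0
          rw [spread_in σ v _ h0, hσn _ h1]
          rfl
      have hsub : ∀ v, x (spread k a l σ v) ≠ x' v → x v ≠ x' v := by
        intro v hv
        by_cases hvi : (v.1 : ℕ) = a + 1 + i
        · rw [eq_blk hkl v i hvi] at hv ⊢
          rw [hsp i v.2, hσi] at hv
          by_cases h1 : v.2 = b
          · rw [h1, hxb, hx'b']; simp
          by_cases h2 : v.2 = c
          · rw [h2, hxc', hx'c]; simp
          by_cases h3 : v.2 = e
          · rw [h3] at hv ⊢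
            rw [hτe] at hv; exact hv
          · rw [hτo _ h1 h2 h3] at hv
            exact hv
        · rw [hsp2 v hvi] at hv
          exact hv
      have hlt : (univ.filter (fun v => x (spread k a l σ v) ≠ x' v)).card <
          (univ.filter (fun v => x v ≠ x' v)).card := by
        refine card_lt_card ?_
        rw [ssubset_iff_of_subset]
        · refine ⟨blk hkl i b, ?_, ?_⟩
          · rw [mem_filter, hxb, hx'b']; simp
          · rw [mem_filter, hsp i b, hσi, hτb, hx'b']; simp
        · intro v hv
          rw [mem_filter] at hv ⊢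
          exact ⟨mem_univ _, hsub v hv.2⟩
      refine ih (univ.filter (fun v => x (spread k a l σ v) ≠ x' v)).card (by omega) _ ?_ ?_ le_rfl
      · refine ⟨?_, ?_, ?_⟩
        · intro v hv
          show x (spread k a l σ v) = true
          rw [spread_out σ v (Or.inl hv)]; exact hx.low v hv
        · intro v hv
          show x (spread k a l σ v) = false
          rw [spread_out σ v (Or.inr hv)]; exact hx.high v hv
        · intro c' hc1 hc2
          refine Eq.trans ?_ (hx.half c' hc1 hc2)
          have h0 : (c' : ℕ) = a + 1 + (⟨(c' : ℕ) - (a + 1), by omega⟩ : Fin l) := by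
            simp only; omega
          refine card_bijective (σ ⟨(c' : ℕ) - (a + 1), by omega⟩) (Equiv.bijective _) ?_
          intro j
          simp only [mem_filter, mem_univ, true_and]
          rw [spread_in σ ((c', j) : Vtx k n) _ h0]
      · intro i' j hj
        show x (spread k a l σ (blk hkl i' j)) = _
        rw [hsp i' j]
        by_cases h0 : i' = i
        · subst h0
          rw [hσi, hτo j (fun h => hbT (h ▸ hj)) (fun h => hcT (h ▸ hj)) (fun h => heT (h ▸ hj))]
          exact hag _ j hj
        · rw [hσn _ h0]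
          exact hag i' j hj

end Pool.Agent.Lib.Pe46137L
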