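import Pool.Agent.Lib.Pe46137L.Defs
import Pool.Agent.Lib.Pe46137.Sym.Lower

/-!
The host digraph of the lower bound and its cuts: definitions.
-/

namespace Pool.Agent.Lib.Pe46137L

open Finset Pool.Agent.Lib.Pe46137

variable {k n : ℕ}

/-- the vertex `j` of the layer `a + 1 + i` -/
def blk {a l : ℕ} (hkl : a + l < k) (i : Fin l) (j : Fin n) : Vtx k n :=
  (⟨a + 1 + i, by have := i.2; omega⟩, j)

/-- in the layers up to `a` only the vertex `p` is used, in the layers beyond `a + l` only the
vertex `q`, in the layers `a + 1, …, a + l` all vertices -/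
def Usable (a l : ℕ) (p q : Fin n) (v : Vtx k n) : Prop :=
  ((v.1 : ℕ) ≤ a → v.2 = p) ∧ (a + l < v.1 → v.2 = q)

/-- the host digraph: all arcs from a usable vertex to a usable vertex of the next layer -/
def Host (a l : ℕ) (p q : Fin n) : Set (Vtx k n × Vtx k n) :=
  {e | (e.2.1 : ℕ) = e.1.1 + 1 ∧ Usable a l p q e.1 ∧ Usable a l p q e.2}

/-- the arcs of the host digraph that do not leave the cut `x` -/
def CutG (a l : ℕ) (p q : Fin n) (x : Vtx k n → Bool) : Set (Vtx k n × Vtx k n) :=
  {e | e ∈ Host a l p q ∧ ¬ (x e.1 = true ∧ x e.2 = false)}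

/-- a cut with exactly `h` vertices on the source side in each of the layers `a + 1, …, a + l` -/
structure Balanced (a l h : ℕ) (x : Vtx k n → Bool) : Prop where
  low : ∀ v : Vtx k n, (v.1 : ℕ) ≤ a → x v = true
  high : ∀ v : Vtx k n, a + l < (v.1 : ℕ) → x v = false
  half : ∀ c : Fin (k + 1), a < (c : ℕ) → (c : ℕ) ≤ a + l →
    (univ.filter (fun j : Fin n => x (c, j) = true)).card = h

theorem cutG_subset (a l : ℕ) (p q : Fin n) (x : Vtx k n → Bool) :
    CutG a l p q x ⊆ Host a l p q := fun _ h => h.1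

theorem host_layered (a l : ℕ) (p q : Fin n) : Host a l p q ∈ Layered k n := fun _ h => h.1

theorem cutG_layered (a l : ℕ) (p q : Fin n) (x : Vtx k n → Bool) :
    CutG a l p q x ∈ Layered k n := fun _ h => h.1.1

end Pool.Agent.Lib.Pe46137L
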