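import Pool.Agent.Lib.Pe46137.Sym.PriceDefs

/-!
Products of Boolean matrices as layered digraphs, and networks that are invariant under the
renamings inside the layers of a block of consecutive layers.
-/

namespace Pool.Agent.Lib.Pe46137L

open Pool.Agent.Lib.Pe46137

/-- the vertices: layers `0, …, k`, each with `n` vertices -/
abbrev Vtx (k n : ℕ) : Type := Fin (k + 1) × Fin n

/-- the vertex `p` of the first layer -/
def start (k : ℕ) {n : ℕ} (p : Fin n) : Vtx k n := (0, p)

/-- the vertex `q` of the last layer -/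
def goal (k : ℕ) {n : ℕ} (q : Fin n) : Vtx k n := (Fin.last k, q)

/-- the layered digraphs: every arc leads from a layer to the next one; such a digraph is a
sequence of `k` Boolean `n × n` matrices, and the vertex `q` of the last layer is reachable from
the vertex `p` of the first one exactly if the entry `(p, q)` of the product of the matrices
is one -/
def Layered (k n : ℕ) : Set (Set (Vtx k n × Vtx k n)) :=
  {G | ∀ e ∈ G, (e.2.1 : ℕ) = e.1.1 + 1}

/-- the renaming maps every layer to itself, and moves only vertices of the layers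
`a + 1, …, a + l` -/
def Inside {k n : ℕ} (a l : ℕ) (π : Equiv.Perm (Vtx k n)) : Prop :=
  ∀ v, (π v).1 = v.1 ∧ (((v.1 : ℕ) ≤ a ∨ a + l < v.1) → π v = v)

/-- the guarded network is invariant inside the layers `a + 1, …, a + l`: every renaming inside
these layers extends to an automorphism of the network -/
def GuardedInvariant {k n : ℕ} {W : Type*} (N : Sym.Network (Vtx k n) W) (a l : ℕ) : Prop :=
  ∀ π : Equiv.Perm (Vtx k n), Inside a l π → ∃ ρ : Equiv.Perm W, N.Lifts π ρ

/-- the switching network is invariant inside the layers `a + 1, …, a + l`: every renaming inside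
these layers extends to an automorphism of the network -/
def LayerInvariant {k n : ℕ} {W : Type*} (N : SwitchingNetwork (Vtx k n × Vtx k n) W)
    (a l : ℕ) : Prop :=
  ∀ π : Equiv.Perm (Vtx k n), Inside a l π → ∃ ρ : Equiv.Perm W, N.Lifts π ρ

/-- the least number of states of a switching network that computes the entry `(p, q)` of the
product of `k` Boolean `n × n` matrices and is invariant inside the layers `a + 1, …, a + l` -/
noncomputable def layerCost (k n a l : ℕ) (p q : Fin n) : ℕ :=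
  sInf {m | ∃ (W : Type) (_ : Fintype W) (N : SwitchingNetwork (Vtx k n × Vtx k n) W),
    Fintype.card W = m ∧ LayerInvariant N a l ∧ N.DecidesOn (Layered k n) (start k p) (goal k q)}

/-- a renaming inside the layers `a + 1, …, a + l`, given by a permutation for each of them -/
def spread (k a l : ℕ) {n : ℕ} (σ : Fin l → Equiv.Perm (Fin n)) : Equiv.Perm (Vtx k n) where
  toFun v := (v.1, if h : a < (v.1 : ℕ) ∧ (v.1 : ℕ) - (a + 1) < l then
    σ ⟨(v.1 : ℕ) - (a + 1), h.2⟩ v.2 else v.2)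
  invFun v := (v.1, if h : a < (v.1 : ℕ) ∧ (v.1 : ℕ) - (a + 1) < l then
    (σ ⟨(v.1 : ℕ) - (a + 1), h.2⟩)⁻¹ v.2 else v.2)
  left_inv v := by
    refine Prod.ext rfl ?_
    by_cases h : a < (v.1 : ℕ) ∧ (v.1 : ℕ) - (a + 1) < l
    · simp [h]
    · simp only [h, dite_false]
  right_inv v := by
    refine Prod.ext rfl ?_
    by_cases h : a < (v.1 : ℕ) ∧ (v.1 : ℕ) - (a + 1) < l
    · simp [h]
    · simp only [h, dite_false]

theorem spread_in {k a l n : ℕ} (σ : Fin l → Equiv.Perm (Fin n)) (v : Vtx k n) (i : Fin l)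
    (h : (v.1 : ℕ) = a + 1 + i) : spread k a l σ v = (v.1, σ i v.2) := by
  have h1 : a < (v.1 : ℕ) ∧ (v.1 : ℕ) - (a + 1) < l := by
    have := i.2
    omega
  have h2 : (⟨(v.1 : ℕ) - (a + 1), h1.2⟩ : Fin l) = i := Fin.ext (by simp only; omega)
  change (v.1, if h : a < (v.1 : ℕ) ∧ (v.1 : ℕ) - (a + 1) < l then
    σ ⟨(v.1 : ℕ) - (a + 1), h.2⟩ v.2 else v.2) = _
  rw [dif_pos h1, h2]

theorem spread_out {k a l n : ℕ} (σ : Fin l → Equiv.Perm (Fin n)) (v : Vtx k n)
    (h : (v.1 : ℕ) ≤ a ∨ a + l < v.1) : spread k a l σ v = v := by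
  have h1 : ¬ (a < (v.1 : ℕ) ∧ (v.1 : ℕ) - (a + 1) < l) := by omega
  change (v.1, if h : a < (v.1 : ℕ) ∧ (v.1 : ℕ) - (a + 1) < l then
    σ ⟨(v.1 : ℕ) - (a + 1), h.2⟩ v.2 else v.2) = _
  rw [dif_neg h1]

theorem spread_layer {k a l n : ℕ} (σ : Fin l → Equiv.Perm (Fin n)) (v : Vtx k n) :
    (spread k a l σ v).1 = v.1 := rfl

theorem spread_inside {k a l n : ℕ} (σ : Fin l → Equiv.Perm (Fin n)) :
    Inside a l (spread k a l σ) := fun v => ⟨rfl, spread_out σ v⟩

theorem spread_one {k a l n : ℕ} : spread k a l (1 : Fin l → Equiv.Perm (Fin n)) = 1 := by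
  ext1 v
  by_cases h : (v.1 : ℕ) ≤ a ∨ a + l < v.1
  · rw [spread_out _ v h]; rfl
  · push Not at h
    rw [spread_in _ v ⟨(v.1 : ℕ) - (a + 1), by omega⟩ (by simp only; omega)]
    rfl

theorem spread_mul {k a l n : ℕ} (σ τ : Fin l → Equiv.Perm (Fin n)) :
    spread k a l (σ * τ) = spread k a l σ * spread k a l τ := by
  ext1 v
  rw [Equiv.Perm.mul_apply]
  by_cases h : (v.1 : ℕ) ≤ a ∨ a + l < v.1
  · rw [spread_out _ v h, spread_out _ v h, spread_out _ v h]
  · push Not at h
    have h1 : (v.1 : ℕ) = a + 1 + (⟨(v.1 : ℕ) - (a + 1), by omega⟩ : Fin l) := by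
      simp only; omega
    rw [spread_in _ v _ h1, spread_in τ v _ h1]
    exact (spread_in σ ((v.1, τ ⟨(v.1 : ℕ) - (a + 1), by omega⟩ v.2) : Vtx k n) _ h1).symm

theorem spread_inv {k a l n : ℕ} (σ : Fin l → Equiv.Perm (Fin n)) :
    spread k a l σ⁻¹ = (spread k a l σ)⁻¹ := by
  rw [eq_inv_iff_mul_eq_one, ← spread_mul, inv_mul_cancel, spread_one]

/-- every renaming inside the layers `a + 1, …, a + l` is of this form -/
theorem exists_spread {k a l n : ℕ} (hkl : a + l < k) {π : Equiv.Perm (Vtx k n)}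
    (hπ : Inside a l π) : ∃ σ : Fin l → Equiv.Perm (Fin n), π = spread k a l σ := by
  have hlt : ∀ i : Fin l, a + 1 + (i : ℕ) < k + 1 := fun i => by have := i.2; omega
  have hinj : ∀ i : Fin l, Function.Injective (fun j : Fin n => (π (⟨a + 1 + i, hlt i⟩, j)).2) := by
    intro i j j' h
    have h1 : π (⟨a + 1 + i, hlt i⟩, j) = π (⟨a + 1 + i, hlt i⟩, j') :=
      Prod.ext (by rw [(hπ _).1, (hπ _).1]) h
    exact congrArg Prod.snd (π.injective h1)
  refine ⟨fun i => Equiv.ofBijective _ (Finite.injective_iff_bijective.1 (hinj i)), ?_⟩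
  ext1 v
  by_cases h : (v.1 : ℕ) ≤ a ∨ a + l < v.1
  · rw [spread_out _ v h, (hπ v).2 h]
  · push Not at h
    have h1 : (v.1 : ℕ) = a + 1 + (⟨(v.1 : ℕ) - (a + 1), by omega⟩ : Fin l) := by
      simp only; omega
    rw [spread_in _ v _ h1]
    refine Prod.ext (hπ v).1 ?_
    have h2 : v = ((⟨a + 1 + ((v.1 : ℕ) - (a + 1)), by have := v.1.2; omega⟩, v.2) : Vtx k n) :=
      Prod.ext (Fin.ext (show (v.1 : ℕ) = a + 1 + ((v.1 : ℕ) - (a + 1)) by omega)) rfl
    exact congrArg (fun x => (π x).2) h2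

theorem inside_zero {k a n : ℕ} {π : Equiv.Perm (Vtx k n)} (hπ : Inside a 0 π) : π = 1 := by
  ext1 v
  exact (hπ v).2 (by omega)

end Pool.Agent.Lib.Pe46137L
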