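import Pool.Agent.Lib.Pe46137L.Defs

/-!
MODULE Det (about 45 min). Matrices with at most one 1 in every row.

The network: states = vertices, `source = start k p`, `sink = goal k q`, no wires, no negations,
`pos e v w := v = e.1 ∧ w = e.2`. It is invariant (`ρ = π`; `start` and `goal` are fixed because
they lie in the layers `0` and `k`). If every vertex has at most one out-neighbour in the layered
digraph `G` then acceptance is reachability: by induction on `EqvGen`, two connected vertices `x`,
`y` have a common `z` reachable from both (walks are deterministic); the goal has no out-neighbour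
(layer `k + 1` does not exist), so `z` is the goal.
-/

namespace Pool.Agent.Lib.Pe46137L

open Pool.Agent.Lib.Pe46137

namespace DetAux

/-- the network -/
def net (k n : ℕ) (p q : Fin n) : SwitchingNetwork (Vtx k n × Vtx k n) (Vtx k n) where
  source := start k p
  sink := goal k q
  wire := fun _ _ => False
  pos := fun e v w => v = e.1 ∧ w = e.2
  neg := fun _ _ _ => False

theorem closed_iff {k n : ℕ} (p q : Fin n) (P F : Set (Vtx k n × Vtx k n)) (v w : Vtx k n) :
    (net k n p q).Closed P F v w ↔ (v, w) ∈ P := by
  unfold SwitchingNetwork.Closed net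
  simp only [false_or, and_false, exists_false, or_false]
  constructor
  · rintro ⟨e, he, rfl, rfl⟩
    exact he
  · intro h
    exact ⟨(v, w), h, rfl, rfl⟩

/-- deterministic walks: connected vertices have a common descendant -/
theorem join {α : Type*} {r : α → α → Prop} (hr : ∀ u v w, r u v → r u w → v = w) {x y : α}
    (h : Relation.EqvGen r x y) : ∃ z, Relation.ReflTransGen r x z ∧ Relation.ReflTransGen r y z := by
  induction h with
  | rel x y h => exact ⟨y, Relation.ReflTransGen.single h, Relation.ReflTransGen.refl⟩
  | refl x => exact ⟨x, Relation.ReflTransGen.refl, Relation.ReflTransGen.refl⟩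
  | symm x y _ ih =>
    obtain ⟨z, h1, h2⟩ := ih
    exact ⟨z, h2, h1⟩
  | trans x y z _ _ ih1 ih2 =>
    obtain ⟨a, h1, h2⟩ := ih1
    obtain ⟨b, h3, h4⟩ := ih2
    have hdet : Relator.RightUnique r := fun u v w h h' => hr u v w h h'
    rcases Relation.ReflTransGen.total_of_right_unique hdet h2 h3 with h5 | h5
    · exact ⟨b, h1.trans h5, h4⟩
    · exact ⟨a, h1, h4.trans h5⟩

theorem eqv_of_rtg {α : Type*} {r : α → α → Prop} {x y : α} (h : Relation.ReflTransGen r x y) :
    Relation.EqvGen r x y := by
  induction h with
  | refl => exact Relation.EqvGen.refl x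
  | tail _ h ih => exact Relation.EqvGen.trans _ _ _ ih (Relation.EqvGen.rel _ _ h)

theorem eqv_congr {α : Type*} {r s : α → α → Prop} (h : ∀ a b, r a b → s a b) {x y : α}
    (hxy : Relation.EqvGen r x y) : Relation.EqvGen s x y := by
  induction hxy with
  | rel x y h' => exact Relation.EqvGen.rel _ _ (h _ _ h')
  | refl x => exact Relation.EqvGen.refl x
  | symm x y _ ih => exact Relation.EqvGen.symm _ _ ih
  | trans x y z _ _ ih1 ih2 => exact Relation.EqvGen.trans _ _ _ ih1 ih2

end DetAux

open DetAux in
theorem det {k n : ℕ} (hk : 0 < k) (p q : Fin n) :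
    ∃ N : SwitchingNetwork (Vtx k n × Vtx k n) (Vtx k n), LayerInvariant N 0 (k - 1) ∧
      N.DecidesOn {G | G ∈ Layered k n ∧ ∀ u v w, (u, v) ∈ G → (u, w) ∈ G → v = w}
        (start k p) (goal k q) ∧ N.Avoids Set.univ := by
  refine ⟨net k n p q, ?_, ?_, ?_⟩
  · intro π hπ
    refine ⟨π, ?_, ?_, ?_, ?_, ?_⟩
    · refine (hπ (start k p)).2 (Or.inl ?_)
      simp [start]
    · refine (hπ (goal k q)).2 (Or.inr ?_)
      simp only [goal, Fin.val_last]
      omega
    · intro v w
      exact Iff.rfl
    · intro e v w
      simp [net]
    · intro e v w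
      exact Iff.rfl
  · rintro G ⟨hG, hdet⟩
    have hcl : ∀ v w, (net k n p q).Closed G Gᶜ v w ↔ (v, w) ∈ G := closed_iff p q G Gᶜ
    unfold SwitchingNetwork.Connects Reachable
    change Relation.EqvGen ((net k n p q).Closed G Gᶜ) (start k p) (goal k q) ↔ _
    constructor
    · intro h
      have h1 : Relation.EqvGen (fun a b => (a, b) ∈ G) (start k p) (goal k q) :=
        eqv_congr (fun a b h => (hcl a b).1 h) h
      obtain ⟨z, h2, h3⟩ := join (fun u v w => hdet u v w) h1
      have h4 : z = goal k q := by
        rcases Relation.ReflTransGen.cases_head h3 with h4 | ⟨c, h4, -⟩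
        · exact h4.symm
        · exfalso
          have h5 := hG _ h4
          simp only [goal, Fin.val_last] at h5
          have := c.1.2
          omega
      rw [← h4]
      exact h2
    · intro h
      exact eqv_congr (fun a b h => (hcl a b).2 h) (eqv_of_rtg h)
  · intro e _ v w h
    exact h

end Pool.Agent.Lib.Pe46137L
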