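import Pool.Agent.Lib.Pe46137.Nice

/-!
MODULE Func (about 1 h). The pebbling functional on juntas.

`Cross i y` (Lib/Pe46137/Nice.lean) says `ext y i = true` and `ext y (i + 1) = false`, where
`ext y 0 = true`, `ext y (j + 1) = y j` for `j < l`, and `ext y (j + 1) = false` for `j ≥ l`.
`Inv d U` (Lib/Pe46137/Pebble.lean) is the pebbling invariant: `Inv_empty`, `Inv_lt`
(`Inv d U → i ∈ U → i + 1 < 2 ^ d`), `Inv_move` (`(insert i U).card ≤ d`, `i = 0` or `i - 1 ∈ U`:
`Inv d U ↔ Inv d (insert i U)`).

PROOF. For `g` put `c I g = ∑ J ⊆ I, (-1) ^ (card (I \ J)) * g (1_J)` (Moebius transform, `1_J` the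
indicator of `J`) and `Φ g = ∑ I with Inv d (I.map Fin.val), c I g`. `Φ 1 = c ∅ 1 = 1` because
`c I 1 = 0` for `I ≠ ∅` and `Inv d ∅`; `Φ 0 = 0`; `Φ` is additive. Let `h = g - g'`.
(1) `c I g = 0` unless `I ⊆ Z` (if `j ∈ I \ Z`, pair `J` and `insert j J`), so `c I h ≠ 0` implies
`I.card ≤ d`. (2) Let `1 ≤ i`. `h y = 0` unless `y (i-1) = true`, so `c I h = 0` unless
`i - 1 ∈ I` (all terms vanish). (3) Let `i < l`. `h y = 0` if `y i = true`, so for `i ∉ I`:
`c (insert i I) h = - c I h` (the terms with `i ∈ J` vanish). Hence for `i < l`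
`Φ h = ∑ I with i ∉ I, c I h * ([Inv I] - [Inv (insert i I)])`, and every term vanishes: if
`c I h ≠ 0` then `c (insert i I) h ≠ 0`, so `(insert i I).card ≤ d` by (1), `i = 0` or
`i - 1 ∈ I` by (2), and `Inv_move` applies. (4) Let `i = l` (so `1 ≤ l`): if `c I h ≠ 0` then
`l - 1 ∈ I` by (2) and `Inv d I` would give `l < 2 ^ d` by `Inv_lt`, false. So `Φ h = 0`.
-/

namespace Pool.Agent.Lib.Pe46137L

open Finset Pool.Agent.Lib.Pe46137

/-- the indicator of a set of positions -/
private def dom {l : ℕ} (J : Finset (Fin l)) : Fin l → Bool := fun j => decide (j ∈ J)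

/-- the Moebius transform -/
private def cf {l : ℕ} (I : Finset (Fin l)) (g : (Fin l → Bool) → ℤ) : ℤ :=
  ∑ J ∈ I.powerset, (-1) ^ (I.card + J.card) * g (dom J)

private theorem cf_sub {l : ℕ} (I : Finset (Fin l)) (g g' : (Fin l → Bool) → ℤ) :
    cf I (fun y => g y - g' y) = cf I g - cf I g' := by
  unfold cf
  rw [← sum_sub_distrib]
  exact sum_congr rfl fun J _ => by ring

private theorem cf_insert {l : ℕ} {j : Fin l} {I : Finset (Fin l)} (hj : j ∉ I)
    (g : (Fin l → Bool) → ℤ) :
    cf (insert j I) g = ∑ J ∈ I.powerset, (-1) ^ (I.card + J.card) *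
      (g (dom (insert j J)) - g (dom J)) := by
  unfold cf
  rw [sum_powerset_insert hj, ← sum_add_distrib]
  refine sum_congr rfl fun J hJ => ?_
  have hjJ : j ∉ J := fun h => hj (mem_powerset.mp hJ h)
  rw [card_insert_of_notMem hj, card_insert_of_notMem hjJ]
  ring

private theorem cf_dep {l : ℕ} {Z I : Finset (Fin l)} {g : (Fin l → Bool) → ℤ}
    (hg : ∀ y y' : Fin l → Bool, (∀ j ∈ Z, y j = y' j) → g y = g y') (h : cf I g ≠ 0) :
    I ⊆ Z := by
  intro j hj
  by_contra hjZ
  apply h
  rw [← insert_erase hj, cf_insert (notMem_erase j I)]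
  refine sum_eq_zero fun J _ => ?_
  rw [hg (dom (insert j J)) (dom J), sub_self, mul_zero]
  intro k hk
  have hkj : k ≠ j := fun e => hjZ (e ▸ hk)
  simp [dom, hkj]

theorem exists_functional {l d : ℕ} (hl : 2 ^ d ≤ l) :
    ∃ Φ : ((Fin l → Bool) → ℤ) → ℤ, Φ (fun _ => 1) = 1 ∧ Φ (fun _ => 0) = 0 ∧
      ∀ i : ℕ, i ≤ l → ∀ (Z Z' : Finset (Fin l)) (g g' : (Fin l → Bool) → ℤ),
        Z.card ≤ d → Z'.card ≤ d →
        (∀ y y' : Fin l → Bool, (∀ j ∈ Z, y j = y' j) → g y = g y') →
        (∀ y y' : Fin l → Bool, (∀ j ∈ Z', y j = y' j) → g' y = g' y') →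
        (∀ y, ¬ Cross i y → g y = g' y) → Φ g = Φ g' := by
  classical
  refine ⟨fun g => ∑ I : Finset (Fin l), if Inv d (I.map Fin.valEmbedding) then cf I g else 0,
    ?_, ?_, ?_⟩
  · simp only
    rw [sum_eq_single ∅]
    · rw [if_pos (by rw [map_empty]; exact Inv_empty d)]
      simp [cf]
    · intro I _ hI
      have : cf I (fun _ => 1) = 0 := by
        unfold cf
        have h1 := sum_powerset_neg_one_pow_card_of_nonempty (Finset.nonempty_iff_ne_empty.mpr hI)
        have h2 : ∑ J ∈ I.powerset, (-1 : ℤ) ^ (I.card + J.card) * 1 =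
            (-1) ^ I.card * ∑ J ∈ I.powerset, (-1 : ℤ) ^ J.card := by
          rw [mul_sum]
          exact sum_congr rfl fun J _ => by ring
        rw [h2, h1, mul_zero]
      rw [this]
      simp
    · intro h
      exact absurd (mem_univ _) h
  · simp [cf]
  · intro i hi Z Z' g g' hZ hZ' hg hg' hgg
    simp only
    rw [← sub_eq_zero, ← sum_sub_distrib]
    set h : (Fin l → Bool) → ℤ := fun y => g y - g' y with hh
    have e0 : ∀ I : Finset (Fin l),
        ((if Inv d (I.map Fin.valEmbedding) then cf I g else 0) -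
          (if Inv d (I.map Fin.valEmbedding) then cf I g' else 0)) =
        if Inv d (I.map Fin.valEmbedding) then cf I h else 0 := by
      intro I
      split_ifs
      · rw [hh, cf_sub]
      · simp
    rw [sum_congr rfl fun I _ => e0 I]
    -- small support
    have hcard : ∀ I : Finset (Fin l), cf I h ≠ 0 → I.card ≤ d := by
      intro I hI
      rw [hh, cf_sub] at hI
      by_cases h1 : cf I g = 0
      · have h2 : cf I g' ≠ 0 := by
          intro h2
          rw [h1, h2] at hI
          exact hI (sub_self 0)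
        exact (card_le_card (cf_dep hg' h2)).trans hZ'
      · exact (card_le_card (cf_dep hg h1)).trans hZ
    have h0 : ∀ y, ¬ Cross i y → h y = 0 := by
      intro y hy
      rw [hh]
      simp only
      rw [hgg y hy, sub_self]
    -- the position before
    have hprev : ∀ (hi1 : 1 ≤ i) (I : Finset (Fin l)), cf I h ≠ 0 →
        (⟨i - 1, by omega⟩ : Fin l) ∈ I := by
      intro hi1 I hI
      by_contra hc
      apply hI
      unfold cf
      refine sum_eq_zero fun J hJ => ?_
      rw [h0, mul_zero]
      rintro ⟨h1, _⟩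
      obtain ⟨m, rfl⟩ : ∃ m, i = m + 1 := ⟨i - 1, by omega⟩
      rw [ext_succ _ (by omega : m < l)] at h1
      simp only [dom, decide_eq_true_eq] at h1
      exact hc (mem_powerset.mp hJ h1)
    rcases Nat.lt_or_ge i l with hil | hil
    · -- an inner arc
      set j : Fin l := ⟨i, hil⟩ with hj
      have hins : ∀ I : Finset (Fin l), j ∉ I → cf (insert j I) h = - cf I h := by
        intro I hI
        rw [cf_insert hI]
        unfold cf
        rw [← sum_neg_distrib]
        refine sum_congr rfl fun J _ => ?_
        rw [h0 (dom (insert j J))]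
        · ring
        · rintro ⟨_, h1⟩
          rw [ext_succ _ hil] at h1
          simp [dom, hj] at h1
      have huniv : (univ : Finset (Finset (Fin l))) = (insert j (univ.erase j)).powerset := by
        rw [insert_erase (mem_univ j), powerset_univ]
      rw [huniv, sum_powerset_insert (notMem_erase j univ), ← sum_add_distrib]
      refine sum_eq_zero fun I hI => ?_
      have hjI : j ∉ I := fun hc => notMem_erase j univ (mem_powerset.mp hI hc)
      by_cases hc : cf I h = 0
      · rw [hins I hjI, hc]
        simp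
      · have h1 : cf (insert j I) h ≠ 0 := by
          rw [hins I hjI]
          exact neg_ne_zero.mpr hc
        have h2 := hcard _ h1
        have h3 : i = 0 ∨ ∃ k ∈ I.map Fin.valEmbedding, k + 1 = i := by
          rcases Nat.eq_zero_or_pos i with h4 | h4
          · exact Or.inl h4
          · right
            refine ⟨i - 1, ?_, by omega⟩
            rw [mem_map]
            exact ⟨_, hprev h4 I hc, rfl⟩
        have h5 : (insert j I).map Fin.valEmbedding = insert i (I.map Fin.valEmbedding) := by
          rw [map_insert]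
          rfl
        have h6 : (insert i (I.map Fin.valEmbedding)).card ≤ d := by
          rw [← h5, card_map]
          exact h2
        have h7 := Inv_move h6 h3
        rw [h5, hins I hjI]
        by_cases h8 : Inv d (I.map Fin.valEmbedding)
        · rw [if_pos h8, if_pos (h7.mp h8)]
          ring
        · rw [if_neg h8, if_neg (fun h9 => h8 (h7.mpr h9))]
          ring
    · -- the last arc
      have hil' : i = l := le_antisymm hi hil
      have hl1 : 1 ≤ l := le_trans Nat.one_le_two_pow hl
      refine sum_eq_zero fun I _ => ?_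
      split_ifs with hI
      · by_contra hc
        have h1 := hprev (by omega) I hc
        have h2 := Inv_lt hI (i - 1) (by
          rw [mem_map]
          exact ⟨_, h1, rfl⟩)
        omega
      · rfl

end Pool.Agent.Lib.Pe46137L
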