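import Pool.Agent.Lib.Pe46137.Sym.Asymp

/-!
MODULE Num (about 1 h). The numerical conditions of the lower bound.

With `L = Nat.log 2 n + 1`: `n < 2 ^ L`, so `n ^ r ≤ 2 ^ (L * r) ≤ (L * r + 1)!` by
`Sym.two_pow_pred_le_factorial` (`2 ^ (y - 1) ≤ y !`). For the binomial coefficient, `q = 2 r`:
`n.choose q * q ! ≥ (n + 1 - q) ^ q` (`Nat.pow_le_choose` or `Nat.pow_sub_le_descFactorial`), and
`q ! ≤ q ^ q`, so it is enough that `(n + 1 - q) ^ 2 ≥ n * q ^ 2 `, i.e. `n + 1 - q ≥ q √n`: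
`n + 1 - q ≥ n / 2` and `n ≥ 4 q ^ 2 = 16 r ^ 2`. (`n ^ r * q ^ q ≤ (n + 1 - q) ^ q` because
`q = 2 r`, both sides are `r`-th powers of `n * q ^ 2 ≤ (n + 1 - q) ^ 2`.)
-/

namespace Pool.Agent.Lib.Pe46137L

open scoped Nat in
theorem numerics {n r : ℕ} (hr : 1 ≤ r) (h : 20 * r ^ 2 * (Nat.log 2 n + 1) ≤ n) :
    n ^ r ≤ n.choose (2 * r) ∧ n ^ r ≤ ((Nat.log 2 n + 1) * r + 1)! ∧
      ((Nat.log 2 n + 1) * r + 1) * (2 * r + 2) ≤ n ∧
      n * ((2 * r + 1) * (2 * r + 2)) ≤ (n - 2 * r) * (n - (2 * r + 1)) ∧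
      8 * r + 3 ≤ n := by
  have hL : 1 ≤ Nat.log 2 n + 1 := by omega
  have hn2 : n < 2 ^ (Nat.log 2 n + 1) := Nat.lt_pow_succ_log_self (by norm_num) n
  generalize Nat.log 2 n + 1 = L at *
  have hrr : r ≤ r ^ 2 := by nlinarith
  have h20 : 20 * r ^ 2 ≤ n := by
    calc 20 * r ^ 2 = 20 * r ^ 2 * 1 := by ring
      _ ≤ 20 * r ^ 2 * L := Nat.mul_le_mul_left _ hL
      _ ≤ n := h
  have h20r : 20 * r ≤ n := by omega
  refine ⟨?_, ?_, ?_, ?_, ?_⟩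
  · obtain ⟨m, hm⟩ : ∃ m, n + 1 - 2 * r = m := ⟨_, rfl⟩
    have hm' : n + 1 = m + 2 * r := by omega
    have key : n * (2 * r) ^ 2 ≤ m ^ 2 := by
      have h1 : 9 * n ≤ 10 * m := by omega
      have h2 : (9 * n) * (9 * n) ≤ (10 * m) * (10 * m) := Nat.mul_le_mul h1 h1
      have h3 : 20 * r ^ 2 * n ≤ n * n := Nat.mul_le_mul_right n h20
      nlinarith
    have h1 : n ^ r * (2 * r) ! ≤ (2 * r) ! * n.choose (2 * r) := by
      calc n ^ r * (2 * r) ! ≤ n ^ r * (2 * r) ^ (2 * r) :=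
            Nat.mul_le_mul_left _ (Nat.factorial_le_pow _)
        _ = (n * (2 * r) ^ 2) ^ r := by rw [mul_pow n, ← pow_mul]
        _ ≤ (m ^ 2) ^ r := Nat.pow_le_pow_left key r
        _ = m ^ (2 * r) := by rw [← pow_mul]
        _ ≤ n.descFactorial (2 * r) := by rw [← hm]; exact Nat.pow_sub_le_descFactorial n (2 * r)
        _ = (2 * r) ! * n.choose (2 * r) := Nat.descFactorial_eq_factorial_mul_choose _ _
    rw [mul_comm] at h1
    exact Nat.le_of_mul_le_mul_left h1 (Nat.factorial_pos _)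
  · calc n ^ r ≤ (2 ^ L) ^ r := Nat.pow_le_pow_left hn2.le r
      _ = 2 ^ (L * r + 1 - 1) := by rw [← pow_mul, Nat.add_sub_cancel]
      _ ≤ (L * r + 1)! := Pe46137.Sym.two_pow_pred_le_factorial _
  · refine le_trans ?_ h
    have h1 : L * r + 1 ≤ 2 * (L * r) := by nlinarith
    have h2 : 2 * r + 2 ≤ 4 * r := by omega
    calc (L * r + 1) * (2 * r + 2) ≤ (2 * (L * r)) * (4 * r) := Nat.mul_le_mul h1 h2
      _ = 8 * r ^ 2 * L := by ring
      _ ≤ 20 * r ^ 2 * L := Nat.mul_le_mul_right _ (Nat.mul_le_mul_right _ (by norm_num))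
  · obtain ⟨a, ha⟩ : ∃ a, n - 2 * r = a := ⟨_, rfl⟩
    obtain ⟨b, hb⟩ : ∃ b, n - (2 * r + 1) = b := ⟨_, rfl⟩
    rw [ha, hb]
    have h1 : 9 * n ≤ 10 * a := by omega
    have h2 : 17 * n ≤ 20 * b := by omega
    have h3 : (9 * n) * (17 * n) ≤ (10 * a) * (20 * b) := Nat.mul_le_mul h1 h2
    have h4 : 20 * r ^ 2 * n ≤ n * n := Nat.mul_le_mul_right n h20
    have h5 : (2 * r + 1) * (2 * r + 2) ≤ 12 * r ^ 2 := by
      calc (2 * r + 1) * (2 * r + 2) ≤ (3 * r) * (4 * r) :=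
            Nat.mul_le_mul (by omega) (by omega)
        _ = 12 * r ^ 2 := by ring
    have h6 : n * ((2 * r + 1) * (2 * r + 2)) ≤ n * (12 * r ^ 2) := Nat.mul_le_mul_left n h5
    nlinarith
  · nlinarith

end Pool.Agent.Lib.Pe46137L
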