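import Pool.Agent.Lib.Pe46137.Sym.Support

/-!
MODULE Supp (about 2 h). Supports of a subgroup of small index of a product of symmetric groups.

Tools (Lib/Pe46137/Sym/Support.lean, namespace Pool.Agent.Lib.Pe46137.Sym): `cyc`, `Tri`, `Rel`
(`Rel H a b`: `a = b` or some 3-cycle `cyc a b c ∈ H`; an equivalence relation: `Rel.refl/symm/
trans/tri/map`), `support_theorem`, `choose_mono_half`, `exists_perm_image`, `cyc_conj`.

PROOF. Write `m = card Ω`, `N = m ^ (d + 1)`, so `card W < N ≤ choose m q` and `N ≤ y!`.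
For `i : ι` let `K i : Subgroup (Perm Ω) = H.comap (MonoidHom.mulSingle (fun _ => Perm Ω) i)`.
(1) `support_theorem (K i) (fun π => F (Pi.mulSingle i π))` gives `T₀ i`, `card < q`, all 3-cycles
outside `T₀ i` in `K i`. Choose `b i ∉ T₀ i` (`q ≤ y * (q + 2) ≤ m`, `y ≥ 1`) and let
`C i = {z | Rel (K i) (b i) z}`, `T i = complement of C i`. Then `T i ⊆ T₀ i` (three points
outside `T₀ i` exist: `2 q < m`), so `card (T i) < q`, and all 3-cycles outside `T i` are in
`K i` (`Rel.tri`, `Rel.symm`, `Rel.trans`).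
(2) If `σ ∈ H` then `σ i` maps `T i` onto `T i`: conjugation by `σ` maps `Pi.mulSingle i τ` to
`Pi.mulSingle i (σ i * τ * (σ i)⁻¹)` and preserves `H`, so `Rel (K i) a b → Rel (K i) (σ i a)
(σ i b)` (`cyc_conj`); hence `σ i '' C i` is contained in a class of the same size as `C i` which
has more than `m / 2` elements, so it meets `C i`, so it is `C i`.
(3) Suppose `d + 1` or more indices `i` have `T i` nonempty; let `e : Fin (d + 1) ↪ ι` enumerate
some of them. For such `i` put `t = card (T i)`, `1 ≤ t`, `2 t ≤ m`, so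
`m = choose m 1 ≤ choose m t` (`choose_mono_half`) and there is an injection
`g i : Fin m → powersetCard t univ`; choose `π i j : Perm Ω` with `(T i).image (π i j) = g i j`
(`exists_perm_image`). For `c : Fin (d + 1) → Fin m` let `σ c i = π i (c x)` if `i = e x`, else
`1`. The map `c ↦ F (σ c)` is injective: `F (σ c) = F (σ c')` gives `(σ c')⁻¹ * σ c ∈ H`, so
by (2) `(T i).image (π i (c x)) = (T i).image (π i (c' x))`, so `c x = c' x`. Hence
`m ^ (d + 1) ≤ card W`, contradiction.
-/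

namespace Pool.Agent.Lib.Pe46137L

open Finset Equiv Pool.Agent.Lib.Pe46137.Sym

namespace SuppAux

variable {ι Ω W : Type} [Fintype ι] [DecidableEq ι] [Fintype Ω] [DecidableEq Ω]
    [Fintype W]

/-- the subgroup of the coordinate `i` -/
def KK (H : Subgroup (ι → Perm Ω)) (i : ι) : Subgroup (Perm Ω) :=
  H.comap (MonoidHom.mulSingle (fun _ => Perm Ω) i)

omit [Fintype ι] [Fintype Ω] [DecidableEq Ω] in
theorem mem_KK {H : Subgroup (ι → Perm Ω)} {i : ι} {π : Perm Ω} :
    π ∈ KK H i ↔ (Pi.mulSingle i π : ι → Perm Ω) ∈ H := Iff.rfl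

omit [Fintype ι] [Fintype Ω] [DecidableEq Ω] in
theorem conj_single (σ : ι → Perm Ω) (i : ι) (τ : Perm Ω) :
    σ * Pi.mulSingle i τ * σ⁻¹ = Pi.mulSingle i (σ i * τ * (σ i)⁻¹) := by
  funext j
  by_cases h : j = i
  · subst h
    simp
  · simp [Pi.mulSingle_eq_of_ne h]

omit [Fintype ι] [Fintype Ω] in
theorem rel_conj {H : Subgroup (ι → Perm Ω)} {σ : ι → Perm Ω} (hσ : σ ∈ H) {i : ι} {a b : Ω}
    (h : Rel (KK H i) a b) : Rel (KK H i) (σ i a) (σ i b) := by
  rcases h with h | ⟨c, h1, h2, h3, h4⟩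
  · exact Or.inl (by rw [h])
  · refine Or.inr ⟨σ i c, fun h => h1 ((σ i).injective h), fun h => h2 ((σ i).injective h),
      fun h => h3 ((σ i).injective h), ?_⟩
    rw [← cyc_conj, mem_KK, ← conj_single]
    exact H.mul_mem (H.mul_mem hσ (mem_KK.1 h4)) (H.inv_mem hσ)

/-- step 1: one coordinate -/
theorem exists_T (H : Subgroup (ι → Perm Ω)) (i : ι) {q : ℕ} (h3 : 2 * q + 3 ≤ Fintype.card Ω)
    (hT : ∃ T : Finset Ω, T.card < q ∧ ∀ a b c, a ∉ T → b ∉ T → c ∉ T → a ≠ b → b ≠ c → a ≠ c →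
      cyc a b c ∈ KK H i) :
    ∃ T : Finset Ω, T.card < q ∧ (∀ a b c, a ∉ T → b ∉ T → c ∉ T → a ≠ b → b ≠ c → a ≠ c →
      cyc a b c ∈ KK H i) ∧ ∀ σ ∈ H, ∀ z, z ∈ T → σ i z ∈ T := by
  classical
  obtain ⟨T₀, hc, htri⟩ := hT
  obtain ⟨b₀, hb₀⟩ : ∃ b, b ∉ T₀ := by
    by_contra hcon
    push Not at hcon
    have : T₀ = univ := by
      ext z
      simp [hcon z]
    rw [this, card_univ] at hc
    omega
  obtain ⟨C, hC⟩ : ∃ C : Finset Ω, C = univ.filter (fun z => Rel (KK H i) b₀ z) := ⟨_, rfl⟩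
  have hmemC : ∀ z, z ∈ C ↔ Rel (KK H i) b₀ z := by
    intro z
    rw [hC, mem_filter]
    exact ⟨fun h => h.2, fun h => ⟨mem_univ _, h⟩⟩
  have hsub : univ \ C ⊆ T₀ := by
    intro z hz
    by_contra hzT
    rw [mem_sdiff] at hz
    apply hz.2
    rw [hmemC]
    by_cases hzb : b₀ = z
    · exact Or.inl hzb
    · have hex : ∃ c, c ∉ insert b₀ (insert z T₀) := by
        by_contra hcon
        push Not at hcon
        have h4 : insert b₀ (insert z T₀) = univ := by
          ext w
          exact ⟨fun _ => mem_univ _, fun _ => hcon w⟩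
        have h5 := card_insert_le b₀ (insert z T₀)
        have h6 := card_insert_le z T₀
        rw [h4, card_univ] at h5
        omega
      obtain ⟨c, hcc⟩ := hex
      rw [mem_insert, mem_insert, not_or, not_or] at hcc
      exact Or.inr ⟨c, hzb, fun h => hcc.2.1 h.symm, fun h => hcc.1 h.symm,
        htri _ _ _ hb₀ hzT hcc.2.2 hzb (fun h => hcc.2.1 h.symm) (fun h => hcc.1 h.symm)⟩
  have hTc : (univ \ C).card < q := lt_of_le_of_lt (card_le_card hsub) hc
  have hCc : Fintype.card Ω < 2 * C.card := by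
    have h4 : (univ \ C).card = Fintype.card Ω - C.card := by
      rw [card_sdiff_of_subset (subset_univ _), card_univ]
    have h5 : C.card ≤ Fintype.card Ω := card_le_univ _
    omega
  have hstC : ∀ σ ∈ H, ∀ z, z ∈ C → σ i z ∈ C := by
    intro σ hσ z hz
    have hinter : ∃ w, w ∈ C ∧ σ i w ∈ C := by
      by_contra hcon
      push Not at hcon
      have hdis : Disjoint C (C.image (σ i)) := by
        rw [Finset.disjoint_left]
        intro w hw hw'
        obtain ⟨u, hu, rfl⟩ := mem_image.1 hw'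
        exact hcon u hu hw
      have h4 : (C ∪ C.image (σ i)).card = C.card + C.card := by
        rw [card_union_of_disjoint hdis, card_image_of_injective _ (σ i).injective]
      have h5 : (C ∪ C.image (σ i)).card ≤ Fintype.card Ω := card_le_univ _
      omega
    obtain ⟨w, hw, hσw⟩ := hinter
    rw [hmemC] at hw hσw hz ⊢
    exact hσw.trans (rel_conj hσ (hw.symm.trans hz))
  refine ⟨univ \ C, hTc, ?_, ?_⟩
  · intro a b c ha hb hcc hab hbc hac
    have hm : ∀ z, z ∉ univ \ C → Rel (KK H i) b₀ z := by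
      intro z hz
      rw [← hmemC]
      by_contra h
      exact hz (mem_sdiff.mpr ⟨mem_univ _, h⟩)
    exact (((hm a ha).symm.trans (hm b hb)).tri ((hm b hb).symm.trans (hm c hcc))
      hab hbc hac).2.2.2
  · intro σ hσ z hz
    rw [mem_sdiff] at hz ⊢
    refine ⟨mem_univ _, fun h => hz.2 ?_⟩
    have h4 := hstC σ⁻¹ (H.inv_mem hσ) _ h
    rw [Pi.inv_apply, inv_app] at h4
    exact h4

/-- many images of a nonempty small set -/
theorem exists_pi (T : Finset Ω) (hT : T.Nonempty) (h : 2 * T.card ≤ Fintype.card Ω) :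
    ∃ π : Ω → Perm Ω, ∀ j j', T.image (π j) = T.image (π j') → j = j' := by
  classical
  have h1 : 1 ≤ T.card := card_pos.2 hT
  have h2 := choose_mono_half h1 h
  rw [Nat.choose_one_right] at h2
  have h3 : Fintype.card Ω ≤ Fintype.card {x // x ∈ powersetCard T.card (univ : Finset Ω)} := by
    rw [Fintype.card_coe, card_powersetCard, card_univ]
    exact h2
  obtain ⟨g⟩ := Function.Embedding.nonempty_of_card_le h3
  have h4 : ∀ j, ∃ π : Perm Ω, T.image π = (g j).1 := by
    intro j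
    apply exists_perm_image
    exact (mem_powersetCard.1 (g j).2).2.symm
  choose π hπ using h4
  refine ⟨π, fun j j' hj => ?_⟩
  rw [hπ, hπ] at hj
  exact g.injective (Subtype.ext hj)

end SuppAux

open scoped Nat in
theorem layer_supports {ι Ω W : Type} [Fintype ι] [DecidableEq ι] [Fintype Ω] [DecidableEq Ω]
    [Fintype W] (H : Subgroup (ι → Perm Ω)) (F : (ι → Perm Ω) → W)
    (hF : ∀ σ σ', F σ = F σ' → σ'⁻¹ * σ ∈ H) {d q y : ℕ}
    (hW : Fintype.card W < Fintype.card Ω ^ (d + 1))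
    (hq : Fintype.card Ω ^ (d + 1) ≤ (Fintype.card Ω).choose q)
    (hy : Fintype.card Ω ^ (d + 1) ≤ y !) (h1 : y * (q + 2) ≤ Fintype.card Ω)
    (h2 : Fintype.card Ω * ((q + 1) * (q + 2)) ≤
      (Fintype.card Ω - q) * (Fintype.card Ω - (q + 1)))
    (h3 : 2 * q + 3 ≤ Fintype.card Ω) :
    ∃ T : ι → Finset Ω, (∀ i, (T i).card < q) ∧
      (∀ i, ∀ a b c, a ∉ T i → b ∉ T i → c ∉ T i → a ≠ b → b ≠ c → a ≠ c →
        Pi.mulSingle i (cyc a b c) ∈ H) ∧
      (univ.filter (fun i => (T i).Nonempty)).card ≤ d := by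
  classical
  have hstep : ∀ i, ∃ T : Finset Ω, T.card < q ∧
      (∀ a b c, a ∉ T → b ∉ T → c ∉ T → a ≠ b → b ≠ c → a ≠ c →
        cyc a b c ∈ SuppAux.KK H i) ∧ ∀ σ ∈ H, ∀ z, z ∈ T → σ i z ∈ T := by
    intro i
    apply SuppAux.exists_T H i h3
    apply support_theorem (SuppAux.KK H i) (fun π => F (Pi.mulSingle i π)) ?_
      (lt_of_lt_of_le hW hq) (lt_of_lt_of_le hW hy) h1 h2
    intro π π' hh
    have h4 := hF _ _ hh
    rw [SuppAux.mem_KK, Pi.mulSingle_mul, Pi.mulSingle_inv]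
    exact h4
  choose T hTc hTtri hTst using hstep
  refine ⟨T, hTc, hTtri, ?_⟩
  have hTim : ∀ σ ∈ H, ∀ i, (T i).image (σ i) = T i := by
    intro σ hσ i
    apply eq_of_subset_of_card_le
    · intro z hz
      obtain ⟨w, hw, rfl⟩ := mem_image.1 hz
      exact hTst i σ hσ w hw
    · rw [card_image_of_injective _ (σ i).injective]
  have hpi : ∀ i : {i // (T i).Nonempty}, ∃ π : Ω → Perm Ω, ∀ j j',
      (T i).image (π j) = (T i).image (π j') → j = j' := by
    intro i
    apply SuppAux.exists_pi _ i.2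
    have := hTc i.1
    omega
  choose π hπ using hpi
  obtain ⟨S, hS⟩ : ∃ S : ({i // (T i).Nonempty} → Ω) → (ι → Perm Ω), S = fun c i =>
    if h : (T i).Nonempty then π ⟨i, h⟩ (c ⟨i, h⟩) else 1 := ⟨_, rfl⟩
  have hSi : ∀ c (i : {i // (T i).Nonempty}), S c i.1 = π i (c i) := by
    intro c i
    rw [hS]
    exact dif_pos i.2
  have hinj : Function.Injective (fun c => F (S c)) := by
    intro c c' hcc
    have h4 := hF _ _ hcc
    funext i
    apply hπ i
    have h5 := hTim _ h4 i.1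
    rw [← hSi, ← hSi]
    have h6 : ((T i.1).image (((S c')⁻¹ * S c) i.1)).image (S c' i.1) =
        (T i.1).image (S c' i.1) := by rw [h5]
    rw [image_image] at h6
    rw [← h6]
    congr 1
    funext z
    rw [Function.comp_apply, Pi.mul_apply, Pi.inv_apply, Perm.mul_apply, app_inv]
  have hcard := Fintype.card_le_of_injective _ hinj
  rw [Fintype.card_fun] at hcard
  have h4 : Fintype.card Ω ^ Fintype.card {i // (T i).Nonempty} < Fintype.card Ω ^ (d + 1) :=
    lt_of_le_of_lt hcard hW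
  have h5 : Fintype.card {i // (T i).Nonempty} < d + 1 :=
    (Nat.pow_lt_pow_iff_right (by omega)).1 h4
  rw [Fintype.card_subtype] at h5
  omega

end Pool.Agent.Lib.Pe46137L
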