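import Pool.Agent.Lib.Pe46137L.Func
import Pool.Agent.Lib.Pe46137L.Supp
import Pool.Agent.Lib.Pe46137L.Cut
import Pool.Agent.Lib.Pe46137L.Num

/-!
The lower bound for networks that are invariant inside `l` consecutive layers.
-/

namespace Pool.Agent.Lib.Pe46137L

open Finset Pool.Agent.Lib.Pe46137

/-- the renamings inside the layers that extend to an automorphism fixing the state -/
def stabL {k n : ℕ} {W : Type*} (N : Sym.Network (Vtx k n) W) (a l : ℕ) (w : W) :
    Subgroup (Fin l → Equiv.Perm (Fin n)) where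
  carrier := {σ | ∃ ρ, N.Lifts (spread k a l σ) ρ ∧ ρ w = w}
  mul_mem' := by
    rintro σ τ ⟨ρ, h1, h2⟩ ⟨ρ', h1', h2'⟩
    refine ⟨ρ * ρ', ?_, ?_⟩
    · rw [spread_mul]; exact h1.mul h1'
    · rw [Equiv.Perm.mul_apply, h2', h2]
  one_mem' := ⟨1, by rw [spread_one]; exact Sym.lifts_one, rfl⟩
  inv_mem' := by
    rintro σ ⟨ρ, h1, h2⟩
    refine ⟨ρ⁻¹, ?_, ?_⟩
    · rw [spread_inv]; exact h1.inv
    · rw [Equiv.Perm.inv_eq_iff_eq]; exact h2.symm

open scoped Classical in
theorem lower {k n a l d : ℕ} (hkl : a + l < k) (p q : Fin n) {W : Type} [Fintype W]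
    (N : Sym.Network (Vtx k n) W) (hN : GuardedInvariant N a l)
    (hdec : ∀ G ∈ Layered k n, (N.Accepts G ↔ Reachable G (start k p) (goal k q)))
    (hd : 2 ^ d ≤ l) (hn : 20 * (d + 1) ^ 2 * (Nat.log 2 n + 1) ≤ n) :
    n ^ (d + 1) ≤ Fintype.card W := by
  by_contra hc
  push Not at hc
  obtain ⟨n1, n2, n3, n4, n5⟩ := numerics (r := d + 1) (by omega) hn
  -- the supports of the states
  choose ρ hρ using fun σ : Fin l → Equiv.Perm (Fin n) => hN (spread k a l σ) (spread_inside σ)
  have hsup : ∀ w : W, ∃ T : Fin l → Finset (Fin n), (∀ i, (T i).card < 2 * (d + 1)) ∧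
      (∀ i, ∀ b c e, b ∉ T i → c ∉ T i → e ∉ T i → b ≠ c → c ≠ e → b ≠ e →
        Pi.mulSingle i (Sym.cyc b c e) ∈ stabL N a l w) ∧
      (univ.filter (fun i => (T i).Nonempty)).card ≤ d := by
    intro w
    refine layer_supports (stabL N a l w) (fun σ => ρ σ w) ?_ (q := 2 * (d + 1))
      (y := (Nat.log 2 n + 1) * (d + 1) + 1) (by rw [Fintype.card_fin]; exact hc)
      (by rw [Fintype.card_fin]; exact n1) (by rw [Fintype.card_fin]; exact n2)
      (by rw [Fintype.card_fin]; exact n3) (by rw [Fintype.card_fin]; exact n4)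
      (by rw [Fintype.card_fin]; omega)
    intro σ σ' h
    refine ⟨(ρ σ')⁻¹ * ρ σ, ?_, ?_⟩
    · rw [spread_mul, spread_inv]; exact (hρ σ').inv.mul (hρ σ)
    · rw [Equiv.Perm.mul_apply, Equiv.Perm.inv_eq_iff_eq]; exact h
  choose T hTc hT hTd using hsup
  obtain ⟨Φ, hΦ1, hΦ0, hΦ⟩ := exists_functional (l := l) (d := d) hd
  set h : ℕ := n / 2 with hh
  have hTn : ∀ w i, (T w i).card + 3 ≤ n := fun w i => by have := hTc w i; omega
  -- the truth value of a state as a function of the values of the cut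
  set J : W → (Fin l → Bool) → ℤ := fun w y =>
    if ∃ x : Vtx k n → Bool, Balanced a l h x ∧ (∀ i, ∀ j ∈ T w i, x (blk hkl i j) = y i) ∧
      Sym.Known N (CutG a l p q x) w then 1 else 0 with hJ
  have hwd : ∀ w y (x : Vtx k n → Bool), Balanced a l h x →
      (∀ i, ∀ j ∈ T w i, x (blk hkl i j) = y i) →
      J w y = if Sym.Known N (CutG a l p q x) w then 1 else 0 := by
    intro w y x hx hxa
    have key : (∃ x : Vtx k n → Bool, Balanced a l h x ∧
        (∀ i, ∀ j ∈ T w i, x (blk hkl i j) = y i) ∧ Sym.Known N (CutG a l p q x) w) ↔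
        Sym.Known N (CutG a l p q x) w := by
      constructor
      · rintro ⟨x', hx', hxa', hk⟩
        refine (known_congr (p := p) (q := q) hkl (hTn w) (hT w) hx' hx ?_).mp hk
        intro i j hj
        rw [hxa' i j hj, hxa i j hj]
      · intro hk
        exact ⟨x, hx, hxa, hk⟩
    simp only [hJ, key]
  have hjunta : ∀ w (y y' : Fin l → Bool),
      (∀ j ∈ univ.filter (fun i => (T w i).Nonempty), y j = y' j) → J w y = J w y' := by
    intro w y y' hyy
    have h1 : ∀ i, ∀ j ∈ T w i, y i = y' i := fun i j hj =>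
      hyy i (mem_filter.2 ⟨mem_univ _, ⟨j, hj⟩⟩)
    simp only [hJ]
    congr 1
    refine propext (exists_congr fun x => and_congr_right fun _ => and_congr_left fun _ => ?_)
    constructor
    · intro h' i j hj
      rw [h' i j hj, h1 i j hj]
    · intro h' i j hj
      rw [h' i j hj, h1 i j hj]
  -- closed contacts on the host digraph
  have hkn : ∀ v w x, N.Closed (CutG a l p q x) v w →
      (Sym.Known N (CutG a l p q x) v ↔ Sym.Known N (CutG a l p q x) w) := by
    intro v w x hx
    exact ⟨fun h' => h'.trans _ _ _ (Relation.EqvGen.rel _ _ hx),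
      fun h' => h'.trans _ _ _ ((Relation.EqvGen.rel _ _ hx).symm _ _)⟩
  have hpick : ∀ (v w : W) (b c : Fin n) (y : Fin l → Bool), ∃ x : Vtx k n → Bool,
      Balanced a l h x ∧ (∀ i, ∀ j ∈ T v i, x (blk hkl i j) = y i) ∧
      (∀ i, ∀ j ∈ T w i, x (blk hkl i j) = y i) ∧ (∀ i, x (blk hkl i b) = y i) ∧
      ∀ i, x (blk hkl i c) = y i := by
    intro v w b c y
    obtain ⟨x, hx, hxa⟩ := exists_cut (n := n) (h := h) hkl (by omega)
      (fun i => T v i ∪ T w i ∪ {b, c}) (by
        intro i
        have e1 := card_union_le (T v i ∪ T w i) {b, c}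
        have e2 := card_union_le (T v i) (T w i)
        have e3 : ({b, c} : Finset (Fin n)).card ≤ 2 := card_le_two
        have e4 := hTc v i
        have e5 := hTc w i
        omega) y
    exact ⟨x, hx, fun i j hj => hxa i j (by simp [hj]), fun i j hj => hxa i j (by simp [hj]),
      fun i => hxa i b (by simp), fun i => hxa i c (by simp)⟩
  have hsame : ∀ v w (y : Fin l → Bool) (x : Vtx k n → Bool), Balanced a l h x →
      (∀ i, ∀ j ∈ T v i, x (blk hkl i j) = y i) → (∀ i, ∀ j ∈ T w i, x (blk hkl i j) = y i) →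
      N.Closed (CutG a l p q x) v w → J v y = J w y := by
    intro v w y x hx h1 h2 h3
    rw [hwd v y x hx h1, hwd w y x hx h2]
    have := hkn v w x h3
    simp only [this]
  have hval : ∀ (x : Vtx k n → Bool) (y : Fin l → Bool) (v : Vtx k n), Balanced a l h x →
      (∀ i, x (blk hkl i v.2) = y i) → a ≤ (v.1 : ℕ) → x v = ext y ((v.1 : ℕ) - a) := by
    intro x y v hx hv hav
    rcases Nat.lt_or_ge (v.1 : ℕ) (a + 1) with h1 | h1
    · have h2 : (v.1 : ℕ) - a = 0 := by omega
      rw [h2, ext_zero]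
      exact hx.low v (by omega)
    · obtain ⟨i, hi⟩ : ∃ i, (v.1 : ℕ) = a + 1 + i := ⟨(v.1 : ℕ) - (a + 1), by omega⟩
      have h2 : (v.1 : ℕ) - a = i + 1 := by omega
      rw [h2]
      rcases Nat.lt_or_ge i l with h3 | h3
      · rw [ext_succ y h3, ← hv ⟨i, h3⟩]
        congr 1
        exact Prod.ext (Fin.ext hi) rfl
      · rw [ext_last y h3]
        exact hx.high v (by omega)
  have hstep : ∀ v w, N.Closed (Host a l p q) v w → Φ (J v) = Φ (J w) := by
    intro v w hvw
    rcases hvw with hfree | ⟨e, he, hguard⟩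
    · congr 1
      funext y
      obtain ⟨x, hx, h1, h2, -, -⟩ := hpick v w p p y
      exact hsame v w y x hx h1 h2 (Or.inl (N.free_lower v w (cutG_subset a l p q x) hfree))
    · have hlay : (e.2.1 : ℕ) = e.1.1 + 1 := he.1
      by_cases hin : a ≤ (e.1.1 : ℕ) ∧ (e.1.1 : ℕ) ≤ a + l
      · refine hΦ ((e.1.1 : ℕ) - a) (by omega) _ _ (J v) (J w) (hTd v) (hTd w) (hjunta v)
          (hjunta w) ?_
        intro y hcr
        obtain ⟨x, hx, h1, h2, h3, h4⟩ := hpick v w e.1.2 e.2.2 y
        refine hsame v w y x hx h1 h2 (Or.inr ⟨e, ⟨he, ?_⟩,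
          N.guard_lower e v w (cutG_subset a l p q x) hguard⟩)
        rw [hval x y e.1 hx h3 hin.1, hval x y e.2 hx h4 (by omega)]
        intro h5
        refine hcr ⟨h5.1, ?_⟩
        have h6 : (e.1.1 : ℕ) - a + 1 = (e.2.1 : ℕ) - a := by omega
        rw [h6]
        exact h5.2
      · congr 1
        funext y
        obtain ⟨x, hx, h1, h2, -, -⟩ := hpick v w p p y
        refine hsame v w y x hx h1 h2 (Or.inr ⟨e, ⟨he, ?_⟩,
          N.guard_lower e v w (cutG_subset a l p q x) hguard⟩)
        rintro ⟨h5, h6⟩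
        rcases Nat.lt_or_ge (e.1.1 : ℕ) a with h7 | h7
        · rw [hx.low e.2 (by omega)] at h6
          exact absurd h6 (by simp)
        · rw [hx.high e.1 (by omega)] at h5
          exact absurd h5 (by simp)
  have hacc : Relation.EqvGen (N.Closed (Host a l p q)) N.source N.sink :=
    (hdec _ (host_layered a l p q)).mpr (reach_host hkl)
  have hall : ∀ v w, Relation.EqvGen (N.Closed (Host a l p q)) v w → Φ (J v) = Φ (J w) := by
    intro v w h
    induction h with
    | rel x y h => exact hstep x y h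
    | refl x => rfl
    | symm x y _ ih => exact ih.symm
    | trans x y z _ _ ih1 ih2 => exact ih1.trans ih2
  have hfin := hall _ _ hacc
  have hsrc : J N.source = fun _ => 1 := by
    funext y
    obtain ⟨x, hx, h1, -, -, -⟩ := hpick N.source N.source p p y
    rw [hwd _ y x hx h1,
      if_pos (show Sym.Known N (CutG a l p q x) N.source from Relation.EqvGen.refl _)]
  have hsnk : J N.sink = fun _ => 0 := by
    funext y
    obtain ⟨x, hx, h1, -, -, -⟩ := hpick N.sink N.sink p p y
    rw [hwd _ y x hx h1, if_neg]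
    intro hk
    exact not_reach_cutG hkl hx ((hdec _ (cutG_layered a l p q x)).mp hk)
  rw [hsrc, hsnk, hΦ1, hΦ0] at hfin
  exact one_ne_zero hfin

end Pool.Agent.Lib.Pe46137L
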