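import Pool.Agent.Lib.Pe46137L.RecDefs

/-!
MODULE RecA (about 1.5 h). Savitch's recursion over a sequence of layers: symmetry and splitting of
the contacts. Adaptation of `actG_stt`, `actG_enn`, `Rec_act`, `Rec_union`, `Rec_empty` of
Lib/Pe46137/Sym/PriceUp.lean (read the proofs there; the only change is the position `i`).
-/

namespace Pool.Agent.Lib.Pe46137L

open Equiv Pool.Agent.Lib.Pe46137.Sym

variable {W₀ X : Type}

theorem actL_stt (σ : ℕ → Perm X) (s0 : W₀) (j i : ℕ) :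
    actL W₀ σ j i (sttG X s0 j) = sttG X s0 j := by
  cases j <;> rfl

theorem actL_enn (σ : ℕ → Perm X) (t0 : W₀) (j i : ℕ) :
    actL W₀ σ j i (ennG X t0 j) = ennG X t0 j := by
  cases j <;> rfl

namespace RecAAux

theorem actL_eq_stt (σ : ℕ → Perm X) (s0 : W₀) (j i : ℕ) (a : StG W₀ X j) :
    actL W₀ σ j i a = sttG X s0 j ↔ a = sttG X s0 j := by
  constructor
  · intro h
    apply (actL W₀ σ j i).injective
    rw [h, actL_stt]
  · rintro rfl
    exact actL_stt σ s0 j i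

theorem actL_eq_enn (σ : ℕ → Perm X) (t0 : W₀) (j i : ℕ) (a : StG W₀ X j) :
    actL W₀ σ j i a = ennG X t0 j ↔ a = ennG X t0 j := by
  constructor
  · intro h
    apply (actL W₀ σ j i).injective
    rw [h, actL_enn]
  · rintro rfl
    exact actL_enn σ t0 j i

end RecAAux

open RecAAux

theorem RecL_act (P : Prop) (s0 t0 : W₀) (σ : ℕ → Perm X) {B B' : ℕ → X → X → W₀ → W₀ → Prop}
    (hB : ∀ i u v z z', B i (σ i u) (σ (i + 1) v) z z' ↔ B' i u v z z') : ∀ (j i : ℕ) (u v : X)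
    (z z' : StG W₀ X j),
      RecL P s0 t0 B j i (σ i u) (σ (i + 2 ^ j) v) (actL W₀ σ j i z) (actL W₀ σ j i z') ↔
        RecL P s0 t0 B' j i u v z z' := by
  intro j
  induction j with
  | zero =>
    intro i u v z z'
    exact hB i u v z z'
  | succ j ih =>
    intro i u v z z'
    have hpow : i + 2 ^ (j + 1) = i + 2 ^ j + 2 ^ j := by rw [pow_succ]; ring
    rcases z with b | ⟨w, c, a⟩ <;> rcases z' with b' | ⟨w', c', a'⟩
    · exact Iff.rfl
    · cases c'
      · change (P ∧ b = true ∧ false = true ∧ actL W₀ σ j (i + 2 ^ j) a' = sttG X s0 j) ↔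
          (P ∧ b = true ∧ false = true ∧ a' = sttG X s0 j)
        rw [actL_eq_stt]
      · change (P ∧ b = true ∧ true = true ∧ actL W₀ σ j i a' = sttG X s0 j) ↔
          (P ∧ b = true ∧ true = true ∧ a' = sttG X s0 j)
        rw [actL_eq_stt]
    · cases c
      · change (P ∧ false = false ∧ b' = false ∧ actL W₀ σ j (i + 2 ^ j) a = ennG X t0 j) ↔
          (P ∧ false = false ∧ b' = false ∧ a = ennG X t0 j)
        rw [actL_eq_enn]
      · change (P ∧ true = false ∧ b' = false ∧ actL W₀ σ j i a = ennG X t0 j) ↔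
          (P ∧ true = false ∧ b' = false ∧ a = ennG X t0 j)
        rw [actL_eq_enn]
    · rw [hpow]
      cases c <;> cases c'
      · change ((P ∧ σ (i + 2 ^ j) w = σ (i + 2 ^ j) w' ∧ false = true ∧ false = false ∧
            actL W₀ σ j (i + 2 ^ j) a = ennG X t0 j ∧ actL W₀ σ j (i + 2 ^ j) a' = sttG X s0 j) ∨
          (σ (i + 2 ^ j) w = σ (i + 2 ^ j) w' ∧ false = true ∧ false = true ∧
            RecL P s0 t0 B j i (σ i u) (σ (i + 2 ^ j) w) (actL W₀ σ j (i + 2 ^ j) a)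
              (actL W₀ σ j (i + 2 ^ j) a')) ∨
          (σ (i + 2 ^ j) w = σ (i + 2 ^ j) w' ∧ false = false ∧ false = false ∧
            RecL P s0 t0 B j (i + 2 ^ j) (σ (i + 2 ^ j) w) (σ (i + 2 ^ j + 2 ^ j) v)
              (actL W₀ σ j (i + 2 ^ j) a) (actL W₀ σ j (i + 2 ^ j) a'))) ↔
          ((P ∧ w = w' ∧ false = true ∧ false = false ∧ a = ennG X t0 j ∧ a' = sttG X s0 j) ∨
          (w = w' ∧ false = true ∧ false = true ∧ RecL P s0 t0 B' j i u w a a') ∨
          (w = w' ∧ false = false ∧ false = false ∧ RecL P s0 t0 B' j (i + 2 ^ j) w v a a'))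
        rw [ih, (σ (i + 2 ^ j)).injective.eq_iff]
        simp
      · change ((P ∧ σ (i + 2 ^ j) w = σ (i + 2 ^ j) w' ∧ false = true ∧ true = false ∧
            actL W₀ σ j (i + 2 ^ j) a = ennG X t0 j ∧ actL W₀ σ j i a' = sttG X s0 j) ∨
          (σ (i + 2 ^ j) w = σ (i + 2 ^ j) w' ∧ false = true ∧ true = true ∧
            RecL P s0 t0 B j i (σ i u) (σ (i + 2 ^ j) w) (actL W₀ σ j (i + 2 ^ j) a)
              (actL W₀ σ j i a')) ∨
          (σ (i + 2 ^ j) w = σ (i + 2 ^ j) w' ∧ false = false ∧ true = false ∧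
            RecL P s0 t0 B j (i + 2 ^ j) (σ (i + 2 ^ j) w) (σ (i + 2 ^ j + 2 ^ j) v)
              (actL W₀ σ j (i + 2 ^ j) a) (actL W₀ σ j i a'))) ↔
          ((P ∧ w = w' ∧ false = true ∧ true = false ∧ a = ennG X t0 j ∧ a' = sttG X s0 j) ∨
          (w = w' ∧ false = true ∧ true = true ∧ RecL P s0 t0 B' j i u w a a') ∨
          (w = w' ∧ false = false ∧ true = false ∧ RecL P s0 t0 B' j (i + 2 ^ j) w v a a'))
        simp
      · change ((P ∧ σ (i + 2 ^ j) w = σ (i + 2 ^ j) w' ∧ true = true ∧ false = false ∧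
            actL W₀ σ j i a = ennG X t0 j ∧ actL W₀ σ j (i + 2 ^ j) a' = sttG X s0 j) ∨
          (σ (i + 2 ^ j) w = σ (i + 2 ^ j) w' ∧ true = true ∧ false = true ∧
            RecL P s0 t0 B j i (σ i u) (σ (i + 2 ^ j) w) (actL W₀ σ j i a)
              (actL W₀ σ j (i + 2 ^ j) a')) ∨
          (σ (i + 2 ^ j) w = σ (i + 2 ^ j) w' ∧ true = false ∧ false = false ∧
            RecL P s0 t0 B j (i + 2 ^ j) (σ (i + 2 ^ j) w) (σ (i + 2 ^ j + 2 ^ j) v)
              (actL W₀ σ j i a) (actL W₀ σ j (i + 2 ^ j) a'))) ↔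
          ((P ∧ w = w' ∧ true = true ∧ false = false ∧ a = ennG X t0 j ∧ a' = sttG X s0 j) ∨
          (w = w' ∧ true = true ∧ false = true ∧ RecL P s0 t0 B' j i u w a a') ∨
          (w = w' ∧ true = false ∧ false = false ∧ RecL P s0 t0 B' j (i + 2 ^ j) w v a a'))
        rw [actL_eq_stt, actL_eq_enn, (σ (i + 2 ^ j)).injective.eq_iff]
        simp
      · change ((P ∧ σ (i + 2 ^ j) w = σ (i + 2 ^ j) w' ∧ true = true ∧ true = false ∧
            actL W₀ σ j i a = ennG X t0 j ∧ actL W₀ σ j i a' = sttG X s0 j) ∨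
          (σ (i + 2 ^ j) w = σ (i + 2 ^ j) w' ∧ true = true ∧ true = true ∧
            RecL P s0 t0 B j i (σ i u) (σ (i + 2 ^ j) w) (actL W₀ σ j i a)
              (actL W₀ σ j i a')) ∨
          (σ (i + 2 ^ j) w = σ (i + 2 ^ j) w' ∧ true = false ∧ true = false ∧
            RecL P s0 t0 B j (i + 2 ^ j) (σ (i + 2 ^ j) w) (σ (i + 2 ^ j + 2 ^ j) v)
              (actL W₀ σ j i a) (actL W₀ σ j i a'))) ↔
          ((P ∧ w = w' ∧ true = true ∧ true = false ∧ a = ennG X t0 j ∧ a' = sttG X s0 j) ∨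
          (w = w' ∧ true = true ∧ true = true ∧ RecL P s0 t0 B' j i u w a a') ∨
          (w = w' ∧ true = false ∧ true = false ∧ RecL P s0 t0 B' j (i + 2 ^ j) w v a a'))
        rw [ih, (σ (i + 2 ^ j)).injective.eq_iff]
        simp

theorem RecL_union {ι : Type} (s0 t0 : W₀) {B B1 : ℕ → X → X → W₀ → W₀ → Prop}
    {B2 : ι → ℕ → X → X → W₀ → W₀ → Prop}
    (hB : ∀ i u v z z', B i u v z z' ↔ (B1 i u v z z' ∨ ∃ x, B2 x i u v z z')) :
    ∀ (j i : ℕ) (u v : X) (z z' : StG W₀ X j), RecL True s0 t0 B j i u v z z' ↔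
      (RecL True s0 t0 B1 j i u v z z' ∨ ∃ x, RecL False s0 t0 (B2 x) j i u v z z') := by
  intro j
  induction j with
  | zero =>
    intro i u v z z'
    exact hB i u v z z'
  | succ j ih =>
    intro i u v z z'
    rcases z with b | ⟨w, c, a⟩ <;> rcases z' with b' | ⟨w', c', a'⟩
    · change False ↔ (False ∨ ∃ _ : ι, False)
      simp
    · change (True ∧ b = true ∧ c' = true ∧ a' = sttG X s0 j) ↔
        ((True ∧ b = true ∧ c' = true ∧ a' = sttG X s0 j) ∨
          ∃ _ : ι, (False ∧ b = true ∧ c' = true ∧ a' = sttG X s0 j))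
      simp
    · change (True ∧ c = false ∧ b' = false ∧ a = ennG X t0 j) ↔
        ((True ∧ c = false ∧ b' = false ∧ a = ennG X t0 j) ∨
          ∃ _ : ι, (False ∧ c = false ∧ b' = false ∧ a = ennG X t0 j))
      simp
    · change ((True ∧ w = w' ∧ c = true ∧ c' = false ∧ a = ennG X t0 j ∧ a' = sttG X s0 j) ∨
        (w = w' ∧ c = true ∧ c' = true ∧ RecL True s0 t0 B j i u w a a') ∨
        (w = w' ∧ c = false ∧ c' = false ∧ RecL True s0 t0 B j (i + 2 ^ j) w v a a')) ↔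
        (((True ∧ w = w' ∧ c = true ∧ c' = false ∧ a = ennG X t0 j ∧ a' = sttG X s0 j) ∨
        (w = w' ∧ c = true ∧ c' = true ∧ RecL True s0 t0 B1 j i u w a a') ∨
        (w = w' ∧ c = false ∧ c' = false ∧ RecL True s0 t0 B1 j (i + 2 ^ j) w v a a')) ∨
        ∃ x, ((False ∧ w = w' ∧ c = true ∧ c' = false ∧ a = ennG X t0 j ∧ a' = sttG X s0 j) ∨
        (w = w' ∧ c = true ∧ c' = true ∧ RecL False s0 t0 (B2 x) j i u w a a') ∨
        (w = w' ∧ c = false ∧ c' = false ∧ RecL False s0 t0 (B2 x) j (i + 2 ^ j) w v a a')))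
      rw [ih, ih]
      constructor
      · rintro (h | ⟨h1, h2, h3, h4 | ⟨x, h4⟩⟩ | ⟨h1, h2, h3, h4 | ⟨x, h4⟩⟩)
        · exact Or.inl (Or.inl h)
        · exact Or.inl (Or.inr (Or.inl ⟨h1, h2, h3, h4⟩))
        · exact Or.inr ⟨x, Or.inr (Or.inl ⟨h1, h2, h3, h4⟩)⟩
        · exact Or.inl (Or.inr (Or.inr ⟨h1, h2, h3, h4⟩))
        · exact Or.inr ⟨x, Or.inr (Or.inr ⟨h1, h2, h3, h4⟩)⟩
      · rintro ((h | ⟨h1, h2, h3, h4⟩ | ⟨h1, h2, h3, h4⟩) |
          ⟨x, ⟨h0, _⟩ | ⟨h1, h2, h3, h4⟩ | ⟨h1, h2, h3, h4⟩⟩)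
        · exact Or.inl h
        · exact Or.inr (Or.inl ⟨h1, h2, h3, Or.inl h4⟩)
        · exact Or.inr (Or.inr ⟨h1, h2, h3, Or.inl h4⟩)
        · exact h0.elim
        · exact Or.inr (Or.inl ⟨h1, h2, h3, Or.inr ⟨x, h4⟩⟩)
        · exact Or.inr (Or.inr ⟨h1, h2, h3, Or.inr ⟨x, h4⟩⟩)

theorem RecL_empty (s0 t0 : W₀) {B : ℕ → X → X → W₀ → W₀ → Prop}
    (hB : ∀ i u v z z', ¬ B i u v z z') : ∀ (j i : ℕ) (u v : X)
    (z z' : StG W₀ X j), ¬ RecL False s0 t0 B j i u v z z' := by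
  intro j
  induction j with
  | zero =>
    intro i u v z z'
    exact hB i u v z z'
  | succ j ih =>
    intro i u v z z'
    rcases z with b | ⟨w, c, a⟩ <;> rcases z' with b' | ⟨w', c', a'⟩
    · exact id
    · rintro ⟨h, _⟩
      exact h
    · rintro ⟨h, _⟩
      exact h
    · rintro (⟨h, _⟩ | ⟨_, _, _, h⟩ | ⟨_, _, _, h⟩)
      · exact h
      · exact ih _ _ _ _ _ h
      · exact ih _ _ _ _ _ h

end Pool.Agent.Lib.Pe46137L
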