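import Pool.Agent.Lib.Pe46137L.Defs
import Pool.Agent.Lib.Pe46137.Sym.PriceUp

/-!
Savitch's recursion over a sequence of layers: definitions. The state type `StG W₀ X j` and its
cardinality (`card_StG_le`), `sttG`, `ennG` are those of Lib/Pe46137/Sym/PriceUp.lean.
-/

namespace Pool.Agent.Lib.Pe46137L

open Equiv Pool.Agent.Lib.Pe46137.Sym

variable {W₀ X : Type}

/-- the contacts of the recursive network from the vertex `u` of position `i` to the vertex `v` of
position `i + 2 ^ j`; `B i u v` are the contacts of the base network from the vertex `u` of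
position `i` to the vertex `v` of position `i + 1`; the linking contacts are present if `P` -/
def RecL (P : Prop) (s0 t0 : W₀) (B : ℕ → X → X → W₀ → W₀ → Prop) :
    ∀ j, ℕ → X → X → StG W₀ X j → StG W₀ X j → Prop
  | 0, i, u, v, z, z' => B i u v z z'
  | j + 1, i, u, v, z, z' => match z, z' with
    | Sum.inl b, Sum.inr (_, c, y) => P ∧ b = true ∧ c = true ∧ y = sttG X s0 j
    | Sum.inr (_, c, y), Sum.inl b => P ∧ c = false ∧ b = false ∧ y = ennG X t0 j
    | Sum.inr (w, c, y), Sum.inr (w', c', y') =>
      (P ∧ w = w' ∧ c = true ∧ c' = false ∧ y = ennG X t0 j ∧ y' = sttG X s0 j) ∨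
      (w = w' ∧ c = true ∧ c' = true ∧ RecL P s0 t0 B j i u w y y') ∨
      (w = w' ∧ c = false ∧ c' = false ∧ RecL P s0 t0 B j (i + 2 ^ j) w v y y')
    | Sum.inl _, Sum.inl _ => False

/-- the action of a sequence of permutations, one for each position -/
def actL (W₀ : Type) {X : Type} (σ : ℕ → Perm X) : ∀ j, ℕ → Perm (StG W₀ X j)
  | 0, _ => Equiv.refl _
  | j + 1, i => Equiv.sumCongr (Equiv.refl Bool)
      (Equiv.prodCongr (σ (i + 2 ^ j)) (Equiv.prodShear (Equiv.refl Bool)
        (fun c => if c = true then actL W₀ σ j i else actL W₀ σ j (i + 2 ^ j))))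

/-- `v` is reached from `u` in `2 ^ j` steps, the `m`-th step being a pair of the relation
`R m` -/
def Chain (R : ℕ → X → X → Prop) : ℕ → ℕ → X → X → Prop
  | 0, i, u, v => R i u v
  | j + 1, i, u, v => ∃ w, Chain R j i u w ∧ Chain R j (i + 2 ^ j) w v

end Pool.Agent.Lib.Pe46137L
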